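import Mathlib
import Pool.Agent.N183.U5.Ten
import Pool.Agent.H204R3.CM.Alt

/-!
# The Casimir form of the Lie algebra of the Hodge-Tate elements: statements

`B` is a finite type, `L` a space of complex matrices. `Cm L P` says that `P` commutes with `L`, and
`TrN L` that the trace form is not degenerate on `L`.
-/

set_option linter.unusedSectionVars false

namespace Pool.Agent.Helper49M

open Matrix Module Pool.Agent.W437.HC Pool.Agent.W437.HD Pool.Agent.W548.Odd Pool.Agent.W522.U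
open Pool.Agent.H204R3.SP Pool.Agent.H204R3.GP Pool.Agent.Y90 Pool.Agent.Y224.TS TensorProduct
open Pool.Agent.Y224.TS.St (IsHodgeTate IsTateModule)
open Pool.Agent.TH504.CB
open Pool.Agent.N183.TS Pool.Agent.N183.U5

noncomputable section

section lin

variable {B : Type} [Fintype B] [DecidableEq B]

/-- The matrix commutes with the space of matrices. -/
def Cm (L : Submodule ℂ (Matrix B B ℂ)) (P : Matrix B B ℂ) : Prop := ∀ X ∈ L, P * X = X * P

/-- The trace form is not degenerate. -/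
def TrN (L : Submodule ℂ (Matrix B B ℂ)) : Prop :=
  ∀ X ∈ L, (∀ Y ∈ L, (X * Y).trace = 0) → X = 0

/-- `pr` is the orthogonal projection onto `L` for the trace form. -/
structure IsPr (L : Submodule ℂ (Matrix B B ℂ)) (pr : Matrix B B ℂ →ₗ[ℂ] Matrix B B ℂ) : Prop where
  mem : ∀ M, pr M ∈ L
  tr : ∀ M, ∀ Y ∈ L, (pr M * Y).trace = (M * Y).trace

end lin

/-- **ND.** The trace form is not degenerate on the commutant of a completely reducible space of
matrices. Proof. `ker P` is stable, so there is an equivariant projection `π` onto `ker P` and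
`W = ker π` is a stable complement; `P` maps `W` bijectively onto the stable space `range P`; let `ρ` be
an equivariant projection onto `range P`; `Q = (P|W)⁻¹ ∘ ρ` commutes with `L` and `Q P = 1 - π` is a
projector, of trace `0`, so `rank (1 - π) = 0` and `P = P (1 - π) = 0`. -/
def S_nd : Prop := ∀ (B : Type) [Fintype B] [DecidableEq B] (L : Submodule ℂ (Matrix B B ℂ)),
  CRed L → ∀ P, Cm L P → (∀ Q, Cm L Q → (Q * P).trace = 0) → P = 0

/-- **DEC.** Decomposition of the identity into projectors onto irreducible submodules. Proof. More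
generally for each idempotent `e` which commutes with `L` in place of `1`, by induction on its trace (or
rank): let `U` be irreducible in the range of `e` (`exists_irS`), `π` an equivariant projection onto
`U`, `π' = π e`; then `e π' = π' = π' e`, `π' π' = π'`, and `e - π'` is an idempotent of smaller
rank. -/
def S_dec : Prop := ∀ (B : Type) [Fintype B] [DecidableEq B] (L : Submodule ℂ (Matrix B B ℂ)),
  CRed L → ∃ (n : ℕ) (U : Fin n → Submodule ℂ (B → ℂ)) (π : Fin n → Matrix B B ℂ),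
    (∀ i, IrS L (U i)) ∧ (∀ i, Cm L (π i)) ∧ (∀ i v, π i *ᵥ v ∈ U i) ∧
      (∀ i, ∀ u ∈ U i, π i *ᵥ u = u) ∧ ∑ i, π i = 1

/-- **TRN.** The trace form is not degenerate on a completely reducible Lie algebra generated by
involutions. Proof. Let `X ∈ L = LT S` with `tr (X Y) = 0` for all `Y ∈ L`. By
`Pool.Agent.W516.KC.central_of_trace` (for endomorphisms, `Semi`) `X` commutes with `L`. Take `U i`,
`π i` as in DEC. By Schur `X` is a scalar `λ i` on `U i` (an eigenspace of `X` in `U i` is stable). As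
`L` is the sum of the span of `S` and of the span of the brackets, `X = ∑ c k • D k + x` with
`D k ∈ S` and `tr (P x) = 0` for all `P` which commute with `L`. Hence
`λ i * dim U i = tr (π i X) = ∑ c k * n k i`, where `n k i = tr (π i D k)` is an integer
(`Pool.Agent.Y224.TS.trace_proj`). For `f : ℂ →ₗ[ℚ] ℚ` put `X' = ∑ (f (c k)) • D k ∈ L`. Then
`0 = tr (X X') = ∑ i, λ i * tr (π i X') = ∑ i, λ i * f (λ i) * dim U i` and `f` of this is
`∑ i, f (λ i) ^ 2 * dim U i = 0`. So `f (λ i) = 0` for all `f`, `λ i = 0` and `X = ∑ π i X = 0`. -/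
def S_trn : Prop := ∀ (B : Type) [Fintype B] [DecidableEq B] (S : Set (Matrix B B ℂ)),
  (∀ D ∈ S, D * D = 1) → CRed (Pool.Agent.Y224.TS.LT S) → TrN (Pool.Agent.Y224.TS.LT S)

/-- **PR.** The orthogonal projection onto `L` in terms of two finite families. Proof:
`Pool.Agent.Y4.G.exists_dual` for the trace form `trF` with `W = W' = L`, `pr M = ∑ tr (M x i) • y i`. -/
def S_pr : Prop := ∀ (B : Type) [Fintype B] [DecidableEq B] (L : Submodule ℂ (Matrix B B ℂ)),
  TrN L → ∃ (n : ℕ) (x y : Fin n → Matrix B B ℂ) (pr : Matrix B B ℂ →ₗ[ℂ] Matrix B B ℂ),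
    IsPr L pr ∧ ∀ M, pr M = ∑ i, (M * x i).trace • y i

/-- **CORE.** Let `D = DS Z σ` and `L = LT S`. Proof. Let `pr` be the projection (PR, TRN),
`Y = D - pr D`. For `A, A' ∈ L`: `tr ([Y, A] A') = tr (Y [A, A']) = 0` and `[Y, A] ∈ L` as `D`
normalizes `L`, so `[Y, A] = 0` by TRN: `Y` commutes with `L`. By ND (and `TD.comm'`) it is enough that
`tr (P Y) = 0` for all `P` in the commutant. The same argument gives `P = pr P + P'` where both
commute with `L` and `P'` is orthogonal to `L`. `tr (pr P Y) = 0` as `Y` is orthogonal to `L`, and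
`tr (P' Y) = tr (P' D) - tr (P' pr D) = tr (P' D) = tr (P' D')` with `D' ∈ S` by `TD.ex`, and this
is `0` as `D' ∈ L`. So `Y = 0`, `D ∈ L`, and `LZ_le` gives the result. -/
def S_core : Prop := ∀ {G : ℕ} (Z : Matrix (Fin G) (Fin G) ℂ)
  (S : Set (Matrix (Fin G ⊕ Fin G) (Fin G ⊕ Fin G) ℂ)), TD Z S →
    (∀ σ : ℂ ≃+* ℂ, ∀ X ∈ Pool.Agent.Y224.TS.LT S,
      DS Z σ * X - X * DS Z σ ∈ Pool.Agent.Y224.TS.LT S) → LZ Z ≤ Pool.Agent.Y224.TS.LT S

section form

variable {G : ℕ}

/-- The form attached to two families of matrices. -/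
def casF {n : ℕ} (x y : Fin n → Matrix (Fin G ⊕ Fin G) (Fin G ⊕ Fin G) ℂ) :
    MultilinearMap ℂ (fun _ : Fin 2 × Fin 2 => Fin G ⊕ Fin G → ℂ) ℂ :=
  ∑ i, Pool.Agent.H204R3.CM.prodMap (fun k : Fin 2 =>
    bil2 ((om G).comp (Matrix.toLin' (if k = 0 then y i else x i))))

/-- The matrix of the functional `X ↦ om (X u) w`. -/
def Am (u w : Fin G ⊕ Fin G → ℂ) : Matrix (Fin G ⊕ Fin G) (Fin G ⊕ Fin G) ℂ :=
  vecMulVec u (Om G ℂ *ᵥ w)

end form

/-- **FRM.** `tr (Am u w X) = om (X u) w`, and `casF x y v = om (pr (Am (v (1,0)) (v (1,1))) (v (0,0)))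
(v (0,1))`. -/
def S_frm : Prop := ∀ (G n : ℕ) (x y : Fin n → Matrix (Fin G ⊕ Fin G) (Fin G ⊕ Fin G) ℂ)
  (pr : Matrix (Fin G ⊕ Fin G) (Fin G ⊕ Fin G) ℂ →ₗ[ℂ] Matrix (Fin G ⊕ Fin G) (Fin G ⊕ Fin G) ℂ),
  (∀ M, pr M = ∑ i, (M * x i).trace • y i) →
    (∀ u w X, (Am u w * X).trace = om G (X *ᵥ u) w) ∧
      ∀ v, casF x y v = om G (pr (Am (v (1, 0)) (v (1, 1))) *ᵥ v (0, 0)) (v (0, 1))

/-- **KIL.** A symplectic matrix which kills the Casimir form normalizes `L`. Proof. With FRM, for all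
`u, w, a, b`: `om (pr A M u) w + om (pr A u) (M w) + om (pr (Am (M a) b + Am a (M b)) u) w = 0`
where `A = Am a b`; `Am (M a) b + Am a (M b) = M A - A M` and `om (pr A u) (M w) = - om (M pr A u) w`,
so `pr (M A - A M) = M pr A - pr A M` for `A = Am a b`, hence for all matrices `A` (they span); for
`A ∈ L` we have `pr A = A` by `TrN`. -/
def S_kil : Prop := ∀ (G n : ℕ) (L : Submodule ℂ (Matrix (Fin G ⊕ Fin G) (Fin G ⊕ Fin G) ℂ))
  (x y : Fin n → Matrix (Fin G ⊕ Fin G) (Fin G ⊕ Fin G) ℂ)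
  (pr : Matrix (Fin G ⊕ Fin G) (Fin G ⊕ Fin G) ℂ →ₗ[ℂ] Matrix (Fin G ⊕ Fin G) (Fin G ⊕ Fin G) ℂ),
  TrN L → IsPr L pr → (∀ M, pr M = ∑ i, (M * x i).trace • y i) →
    ∀ M : Matrix (Fin G ⊕ Fin G) (Fin G ⊕ Fin G) ℂ,
      (∀ u v, om G (M *ᵥ u) v + om G u (M *ᵥ v) = 0) →
      Kills (ph (Fin G ⊕ Fin G) M) (casF x y) → ∀ X ∈ L, M * X - X * M ∈ L

/-- **INV.** The Casimir form under symplectic similitudes which normalize `L`. Proof. `pr` commutes
with the conjugation by `R` (uniqueness of `pr` by `TrN`), `Am (R a) (R b) = c • R (Am a b) R⁻¹`. -/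
def S_inv : Prop := ∀ (G n : ℕ) (L : Submodule ℂ (Matrix (Fin G ⊕ Fin G) (Fin G ⊕ Fin G) ℂ))
  (x y : Fin n → Matrix (Fin G ⊕ Fin G) (Fin G ⊕ Fin G) ℂ)
  (pr : Matrix (Fin G ⊕ Fin G) (Fin G ⊕ Fin G) ℂ →ₗ[ℂ] Matrix (Fin G ⊕ Fin G) (Fin G ⊕ Fin G) ℂ),
  TrN L → IsPr L pr → (∀ M, pr M = ∑ i, (M * x i).trace • y i) →
    ∀ (R R' : Matrix (Fin G ⊕ Fin G) (Fin G ⊕ Fin G) ℂ) (c : ℂ), R * R' = 1 → R' * R = 1 →
      (∀ u v, om G (R *ᵥ u) (R *ᵥ v) = c * om G u v) → (∀ X ∈ L, R * X * R' ∈ L) →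
      (∀ X ∈ L, R' * X * R ∈ L) → ∀ v, casF x y (fun k => R *ᵥ v k) = c ^ 2 * casF x y v

/-- **DSC.** Descent. Let `F` be a complex multilinear form on which a subgroup of finite index acts
through the power of the cyclotomic character, and suppose that all Tate tensors over `K` in `2 m`
variables are combinations of Hodge tensors. Then `F` is killed by the conjugates of the complex
structure. Proof. The values of `F` on the standard basis span a finite dimensional `K`-space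
(`exists_coordF`), so `F (cv v) = ∑ c j * l j (F (cv v))` for `K`-linear `l j : ℂ → K`. The form
`t j (v) = l j (F (eY (1 ⊗ v)))` is a Tate tensor over `K` (`MultilinearMap.restrictScalars`,
`compLinearMap`), so it is a combination of Hodge tensors on rational vectors; then so is `F`. A
rational Hodge tensor is killed by `DZ Z = DJ (JR Z)` (as in `Cht.isH`) and, being rational, by its
conjugates. -/
def S_dsc : Prop := ∀ {H T : Type} [AddCommGroup H] [Module ℚ H] [AddCommGroup T] [Module ℂ T]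
  {K : Type} [Field K] [CharZero K] [Algebra K ℂ] {Γ : Type} [Group Γ] (per : H →+ T)
  (ρ : Representation K Γ (K ⊗[ℚ] H)) (χ : Γ →* K) (G : ℕ) (Z : Matrix (Fin G) (Fin G) ℂ)
  (b : Basis (Fin G ⊕ Fin G) ℚ H),
  Cht (per.comp b.equivFun.symm.toLinearMap.toAddMonoidHom) (JR Z) → ∀ m : ℕ,
  (∀ t : MultilinearMap K (fun _ : Fin m × Fin 2 => K ⊗[ℚ] H) K, IsTate ρ χ m t →
    ∃ (n : ℕ) (c : Fin n → K) (f : Fin n → MultilinearMap ℚ (fun _ : Fin m × Fin 2 => H) ℚ),
    (∀ j, IsHodgeTensor per (f j)) ∧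
      ∀ v : Fin m × Fin 2 → H, t (fun k => (1 : K) ⊗ₜ[ℚ] v k) = ∑ j, c j * ((f j v : ℚ) : K)) →
  ∀ (F : MultilinearMap ℂ (fun _ : Fin m × Fin 2 => Fin G ⊕ Fin G → ℂ) ℂ) (Δ : Subgroup Γ),
    Δ.FiniteIndex → (∀ s ∈ Δ, ∀ v : Fin m × Fin 2 → Fin G ⊕ Fin G → ℂ,
      F (fun k => mt b (bcr ρ ℂ s) *ᵥ v k) = algebraMap K ℂ (χ s) ^ m * F v) →
    ∀ σ : ℂ ≃+* ℂ, Kills (ph (Fin G ⊕ Fin G) (DS Z σ)) F

end

end Pool.Agent.Helper49M
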