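import Mathlib
import Pool.Agent.Helper49M.Stm

/-!
# The conjugates of the complex structure belong to a Lie algebra which they normalize
-/

set_option linter.unusedSectionVars false

namespace Pool.Agent.Helper49M

open Matrix Module Pool.Agent.Y90 Pool.Agent.Y224.TS

noncomputable section

variable {B : Type} [Fintype B] [DecidableEq B] {L : Submodule ℂ (Matrix B B ℂ)}
  {pr : Matrix B B ℂ →ₗ[ℂ] Matrix B B ℂ}

/-- The component orthogonal to `L` of an element which normalizes `L` commutes with `L`. -/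
theorem IsPr.comm (hp : IsPr L pr) (hT : TrN L) (hbr : ∀ X ∈ L, ∀ Y ∈ L, X * Y - Y * X ∈ L)
    {M : Matrix B B ℂ} (hM : ∀ X ∈ L, M * X - X * M ∈ L) : Cm L (M - pr M) := by
  intro A hA
  rw [← sub_eq_zero]
  refine hT _ ?_ fun A' hA' => ?_
  · have h1 : (M - pr M) * A - A * (M - pr M) = (M * A - A * M) - (pr M * A - A * pr M) := by
      noncomm_ring
    rw [h1]
    exact L.sub_mem (hM A hA) (hbr _ (hp.mem M) _ hA)
  · have h1 : (((M - pr M) * A - A * (M - pr M)) * A').trace =
        (M * (A * A' - A' * A)).trace - (pr M * (A * A' - A' * A)).trace := by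
      have e1 : ((M - pr M) * A - A * (M - pr M)) * A' =
          (M - pr M) * (A * A') - A * ((M - pr M) * A') := by noncomm_ring
      rw [e1, trace_sub, trace_mul_comm A, ← trace_sub]
      have e2 : (M - pr M) * (A * A') - (M - pr M) * A' * A =
          M * (A * A' - A' * A) - pr M * (A * A' - A' * A) := by noncomm_ring
      rw [e2, trace_sub]
    rw [h1, hp.tr M _ (hbr A hA A' hA'), sub_self]

theorem IsPr.orth (hp : IsPr L pr) (M : Matrix B B ℂ) {Y : Matrix B B ℂ} (hY : Y ∈ L) :
    ((M - pr M) * Y).trace = 0 := by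
  rw [sub_mul, trace_sub, hp.tr M Y hY, sub_self]

theorem core (hnd : S_nd) (hpr : S_pr) (htrn : S_trn) : S_core := by
  intro G Z S h hn
  have hT := htrn _ S h.sq h.cr
  obtain ⟨n, x, y, pr, hp, -⟩ := hpr _ _ hT
  refine LZ_le (fun σ => ?_) fun A hA C hC => LT_br hA hC
  have hbr : ∀ X ∈ Pool.Agent.Y224.TS.LT S, ∀ Y ∈ Pool.Agent.Y224.TS.LT S,
      X * Y - Y * X ∈ Pool.Agent.Y224.TS.LT S := fun X hX Y hY => LT_br hX hY
  have hY := hp.comm hT hbr (hn σ)
  have h0 : DS Z σ - pr (DS Z σ) = 0 := by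
    refine hnd _ _ h.cr _ hY fun Q hQ => ?_
    have hQ' := hp.comm hT hbr (M := Q) fun X hX => by
      rw [hQ X hX, sub_self]
      exact Submodule.zero_mem _
    obtain ⟨D', hD', htr⟩ := h.ex σ
    have e0 : Q = pr Q + (Q - pr Q) := by abel
    have e1 : (pr Q * (DS Z σ - pr (DS Z σ))).trace = 0 := by
      rw [trace_mul_comm]
      exact hp.orth _ (hp.mem Q)
    have e2 : ((Q - pr Q) * (DS Z σ - pr (DS Z σ))).trace = 0 := by
      rw [mul_sub, trace_sub, hp.orth Q (hp.mem _), sub_zero,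
        ← htr _ ((h.comm' _).1 hQ')]
      exact hp.orth Q (LT_gen hD')
    rw [e0, add_mul, trace_add, e1, e2, add_zero]
  rw [sub_eq_zero.1 h0]
  exact hp.mem _

end

end Pool.Agent.Helper49M
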