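import Mathlib
import Pool.Agent.Helper49M.Stm

/-!
# The Casimir form
-/

set_option linter.unusedSectionVars false

namespace Pool.Agent.Helper49M

open Matrix Module Pool.Agent.W437.HC Pool.Agent.W437.HD Pool.Agent.W548.Odd Pool.Agent.W522.U
open Pool.Agent.H204R3.SP Pool.Agent.H204R3.GP Pool.Agent.Y90 Pool.Agent.Y224.TS

noncomputable section

variable {G : ℕ}

theorem Am_tr (u w : Fin G ⊕ Fin G → ℂ) (X : Matrix (Fin G ⊕ Fin G) (Fin G ⊕ Fin G) ℂ) :
    (Am u w * X).trace = om G (X *ᵥ u) w := by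
  unfold Am
  rw [trace_mul_comm, mul_vecMulVec, trace_vecMulVec, om_apply]

theorem casF_apply {n : ℕ} (x y : Fin n → Matrix (Fin G ⊕ Fin G) (Fin G ⊕ Fin G) ℂ)
    (v : Fin 2 × Fin 2 → Fin G ⊕ Fin G → ℂ) : casF x y v =
      ∑ i, om G (y i *ᵥ v (0, 0)) (v (0, 1)) * om G (x i *ᵥ v (1, 0)) (v (1, 1)) := by
  unfold casF
  rw [_root_.sum_apply]
  refine Finset.sum_congr rfl fun i _ => ?_
  rw [Pool.Agent.H204R3.CM.prodMap_apply, Fin.prod_univ_two, bil2_apply, bil2_apply,
    LinearMap.comp_apply, LinearMap.comp_apply, Matrix.toLin'_apply, Matrix.toLin'_apply, if_pos rfl,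
    if_neg (by decide)]

theorem frm : S_frm := by
  intro G n x y pr hpr
  refine ⟨Am_tr, fun v => ?_⟩
  rw [casF_apply, hpr, Matrix.sum_mulVec, map_sum, LinearMap.sum_apply]
  refine Finset.sum_congr rfl fun i _ => ?_
  rw [Am_tr, smul_mulVec, map_smul, LinearMap.smul_apply, smul_eq_mul, mul_comm]

/-- Matrices are determined by the functionals. -/
theorem mat_ext {M N : Matrix (Fin G ⊕ Fin G) (Fin G ⊕ Fin G) ℂ}
    (h : ∀ u w, om G (M *ᵥ u) w = om G (N *ᵥ u) w) : M = N := by
  apply Matrix.toLin'.injective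
  refine LinearMap.ext fun u => ?_
  rw [Matrix.toLin'_apply, Matrix.toLin'_apply, ← sub_eq_zero]
  apply om_nd
  intro w
  rw [map_sub, LinearMap.sub_apply, h, sub_self]

/-- The rank one matrices span. -/
theorem Am_span (f g : Matrix (Fin G ⊕ Fin G) (Fin G ⊕ Fin G) ℂ →ₗ[ℂ]
    Matrix (Fin G ⊕ Fin G) (Fin G ⊕ Fin G) ℂ) (h : ∀ u w, f (Am u w) = g (Am u w)) : f = g := by
  refine LinearMap.ext fun M => ?_
  have h1 : ∀ i j : Fin G ⊕ Fin G, f (Matrix.single i j (1 : ℂ)) = g (Matrix.single i j 1) := by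
    intro i j
    have h2 : Am (Pi.single i 1) (-(Om G ℂ *ᵥ Pi.single j 1)) = Matrix.single i j (1 : ℂ) := by
      unfold Am
      rw [mulVec_neg, mulVec_mulVec, Om_sq, neg_mulVec, neg_neg, one_mulVec,
        ← Matrix.single_eq_single_vecMulVec_single]
    rw [← h2, h]
  rw [Matrix.matrix_eq_sum_single M, map_sum, map_sum]
  refine Finset.sum_congr rfl fun i _ => ?_
  rw [map_sum, map_sum]
  refine Finset.sum_congr rfl fun j _ => ?_
  have h2 : Matrix.single i j (M i j) = M i j • Matrix.single i j (1 : ℂ) := by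
    rw [Matrix.smul_single, smul_eq_mul, mul_one]
  rw [h2, map_smul, map_smul, h1]

theorem kil : S_kil := by
  intro G n L x y pr hT hp hpr M hM hk X hX
  obtain ⟨h1, h2⟩ := frm G n x y pr hpr
  have hAm : ∀ a b, Am (M *ᵥ a) b + Am a (M *ᵥ b) = M * Am a b - Am a b * M := by
    intro a b
    have h3 : ∀ Y : Matrix (Fin G ⊕ Fin G) (Fin G ⊕ Fin G) ℂ,
        ((Am (M *ᵥ a) b + Am a (M *ᵥ b)) * Y).trace = ((M * Am a b - Am a b * M) * Y).trace := by
      intro Y
      rw [add_mul, trace_add, h1, h1, sub_mul, trace_sub, mul_assoc, trace_mul_comm, mul_assoc, h1,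
        mul_assoc, h1, ← mulVec_mulVec, ← mulVec_mulVec, mulVec_mulVec, mulVec_mulVec]
      have h4 := hM (Y *ᵥ a) b
      rw [mulVec_mulVec] at h4
      linear_combination h4
    ext i j
    have h4 := h3 (Matrix.single j i 1)
    rw [trace_mul_single, trace_mul_single] at h4
    simpa using h4
  have key : pr ∘ₗ (LinearMap.mulLeft ℂ M - LinearMap.mulRight ℂ M) =
      (LinearMap.mulLeft ℂ M - LinearMap.mulRight ℂ M) ∘ₗ pr := by
    refine Am_span _ _ fun a b => ?_
    change pr (M * Am a b - Am a b * M) = M * pr (Am a b) - pr (Am a b) * M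
    rw [← hAm]
    refine mat_ext fun u w => ?_
    have h3 := hk (fun k => if k = (0, 0) then u else if k = (0, 1) then w else
      if k = (1, 0) then a else b)
    rw [Fintype.sum_prod_type, Fin.sum_univ_two, Fin.sum_univ_two, Fin.sum_univ_two] at h3
    simp only [h2] at h3
    simp only [Function.update_apply] at h3
    simp at h3
    have h4 := hM (pr (Am a b) *ᵥ u) w
    rw [mulVec_mulVec] at h4
    rw [map_add, add_mulVec, map_add, LinearMap.add_apply, sub_mulVec, map_sub,
      LinearMap.sub_apply]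
    linear_combination h3 - h4
  have h3 := LinearMap.congr_fun key X
  change pr (M * X - X * M) = M * pr X - pr X * M at h3
  have h4 : pr X = X := by
    rw [← sub_eq_zero]
    refine hT _ (L.sub_mem (hp.mem X) hX) fun Y hY => ?_
    rw [sub_mul, trace_sub, hp.tr X Y hY, sub_self]
  rw [h4] at h3
  rw [← h3]
  exact hp.mem _

theorem inv : S_inv := by
  intro G n L x y pr hT hp hpr R R' c hR hR' hom h5 h6 v
  obtain ⟨h1, h2⟩ := frm G n x y pr hpr
  have hAm : ∀ a b, Am (R *ᵥ a) (R *ᵥ b) = c • (R * Am a b * R') := by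
    intro a b
    have h3 : ∀ Y : Matrix (Fin G ⊕ Fin G) (Fin G ⊕ Fin G) ℂ,
        (Am (R *ᵥ a) (R *ᵥ b) * Y).trace = ((c • (R * Am a b * R')) * Y).trace := by
      intro Y
      have h4 : Y *ᵥ (R *ᵥ a) = R *ᵥ ((R' * Y * R) *ᵥ a) := by
        rw [mulVec_mulVec, mulVec_mulVec, ← mul_assoc, ← mul_assoc, hR, one_mul]
      have e1 : (R * Am a b * R' * Y).trace = (Am a b * (R' * Y * R)).trace := by
        rw [mul_assoc R, mul_assoc R, trace_mul_comm R]
        congr 1
        noncomm_ring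
      rw [h1, h4, hom, smul_mul_assoc, trace_smul, smul_eq_mul, e1, h1]
    ext i j
    have h4 := h3 (Matrix.single j i 1)
    rw [trace_mul_single, trace_mul_single] at h4
    simpa using h4
  have hpR : ∀ M, pr (R * M * R') = R * pr M * R' := by
    intro M
    rw [← sub_eq_zero]
    refine hT _ (L.sub_mem (hp.mem _) (h5 _ (hp.mem M))) fun Y hY => ?_
    have h7 := hp.tr M _ (h6 Y hY)
    rw [sub_mul, trace_sub, hp.tr _ Y hY, sub_eq_zero]
    have e1 : ∀ N : Matrix (Fin G ⊕ Fin G) (Fin G ⊕ Fin G) ℂ,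
        (R * N * R' * Y).trace = (N * (R' * Y * R)).trace := by
      intro N
      rw [mul_assoc R, mul_assoc R, trace_mul_comm R]
      congr 1
      noncomm_ring
    rw [e1, e1, h7]
  rw [h2, h2, hAm, map_smul, hpR, smul_mulVec, map_smul, LinearMap.smul_apply, smul_eq_mul,
    mulVec_mulVec, mul_assoc, mul_assoc, hR', mul_one, ← mulVec_mulVec, hom]
  ring

end

end Pool.Agent.Helper49M
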