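import Mathlib
import Pool.Agent.Helper49M.Stm
import Pool.Agent.Y4.G.Cas

/-!
# The trace form on commutants, and orthogonal projections
-/

set_option linter.unusedSectionVars false

namespace Pool.Agent.Helper49M

open Matrix Module Pool.Agent.Y90 Pool.Agent.Y224.TS
open Pool.Agent.Y4.G (trF trF_apply exists_dual trace_idemM)

noncomputable section

variable {B : Type} [Fintype B] [DecidableEq B]

theorem idem_zero {R : Matrix B B ℂ} (hR : R * R = R) (h : trace R = 0) : R = 0 := by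
  have h1 := trace_idemM hR
  rw [h] at h1
  have h2 : finrank ℂ (LinearMap.range (mulVecLin R)) = 0 := by exact_mod_cast h1.symm
  rw [Submodule.finrank_eq_zero, LinearMap.range_eq_bot] at h2
  apply Matrix.toLin'.injective
  rw [map_zero]
  exact h2

theorem nd : S_nd := by
  intro B _ _ L hL P hP h
  have hP' : ∀ X ∈ L, ∀ v, P *ᵥ (X *ᵥ v) = X *ᵥ (P *ᵥ v) := by
    intro X hX v
    rw [mulVec_mulVec, mulVec_mulVec, hP X hX]
  have hker : Stab L (LinearMap.ker (Matrix.toLin' P)) := by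
    intro X hX u hu
    rw [LinearMap.mem_ker, Matrix.toLin'_apply] at hu ⊢
    rw [hP' X hX, hu, mulVec_zero]
  obtain ⟨π, h1, h2, h3⟩ := hL _ hker
  have hran : Stab L (LinearMap.range (Matrix.toLin' P)) := by
    rintro X hX _ ⟨w, rfl⟩
    exact ⟨X *ᵥ w, by rw [Matrix.toLin'_apply, Matrix.toLin'_apply, hP' X hX]⟩
  obtain ⟨ρ, r1, r2, r3⟩ := hL _ hran
  have hπP : ∀ v, P *ᵥ π v = 0 := by
    intro v
    have := h2 v
    rwa [LinearMap.mem_ker, Matrix.toLin'_apply] at this
  have hinj : ∀ v, π v = 0 → P *ᵥ v = 0 → v = 0 := by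
    intro v hv hv'
    rw [← h3 v (by rw [LinearMap.mem_ker, Matrix.toLin'_apply]; exact hv'), hv]
  -- a section
  have hsec : ∀ w, ∃ u, π u = 0 ∧ P *ᵥ u = ρ w := by
    intro w
    obtain ⟨v, hv⟩ := r2 w
    rw [Matrix.toLin'_apply] at hv
    refine ⟨v - π v, ?_, ?_⟩
    · rw [map_sub, h3 _ (h2 v), sub_self]
    · rw [mulVec_sub, hπP, sub_zero, hv]
  choose q hq1 hq2 using hsec
  have huniq : ∀ w u, π u = 0 → P *ᵥ u = ρ w → u = q w := by
    intro w u hu hu'
    rw [← sub_eq_zero]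
    apply hinj
    · rw [map_sub, hu, hq1, sub_self]
    · rw [mulVec_sub, hu', hq2, sub_self]
  let Q : (B → ℂ) →ₗ[ℂ] (B → ℂ) :=
    { toFun := q
      map_add' := fun a b => (huniq _ _ (by rw [map_add, hq1, hq1, add_zero])
        (by rw [mulVec_add, hq2, hq2, map_add])).symm
      map_smul' := fun c a => (huniq _ _ (by rw [RingHom.id_apply, map_smul, hq1, smul_zero])
        (by rw [RingHom.id_apply, mulVec_smul, hq2, map_smul])).symm }
  have hQv : ∀ w, LinearMap.toMatrix' Q *ᵥ w = q w := by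
    intro w
    rw [← Matrix.toLin'_apply, Matrix.toLin'_toMatrix']
    rfl
  have hQ : Cm L (LinearMap.toMatrix' Q) := by
    intro X hX
    rw [← comm_mat]
    intro w
    change q (X *ᵥ w) = X *ᵥ q w
    refine (huniq _ _ ?_ ?_).symm
    · rw [h1 X hX, hq1, mulVec_zero]
    · rw [hP' X hX, hq2, r1 X hX]
  have hQP : ∀ v, (LinearMap.toMatrix' Q * P) *ᵥ v = v - π v := by
    intro v
    rw [← mulVec_mulVec, hQv]
    refine (huniq _ _ ?_ ?_).symm
    · rw [map_sub, h3 _ (h2 v), sub_self]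
    · rw [mulVec_sub, hπP, sub_zero, r3 _ ⟨v, Matrix.toLin'_apply P v⟩]
  have hidem : (LinearMap.toMatrix' Q * P) * (LinearMap.toMatrix' Q * P) =
      LinearMap.toMatrix' Q * P := by
    apply Matrix.toLin'.injective
    refine LinearMap.ext fun v => ?_
    rw [Matrix.toLin'_apply, Matrix.toLin'_apply, ← mulVec_mulVec, hQP, hQP, map_sub,
      h3 _ (h2 v), sub_self, sub_zero]
  have h0 := idem_zero hidem (h _ hQ)
  apply Matrix.toLin'.injective
  refine LinearMap.ext fun v => ?_
  have h5 := hQP v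
  rw [h0, zero_mulVec] at h5
  rw [Matrix.toLin'_apply, map_zero, LinearMap.zero_apply, sub_eq_zero.1 h5.symm, hπP]

theorem pr_ex : S_pr := by
  intro B _ _ L hL
  obtain ⟨n, b, y, hy, h1, h2⟩ := exists_dual (trF B) L L
    (fun x hx h => hL x hx fun Y hY => by rw [← trF_apply]; exact h Y hY)
    (fun y hy h => hL y hy fun X hX => by rw [trace_mul_comm, ← trF_apply]; exact h X hX)
  let pr : Matrix B B ℂ →ₗ[ℂ] Matrix B B ℂ :=
    ∑ i, ((trF B).flip (b i : Matrix B B ℂ)).smulRight (y i)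
  have hpr : ∀ M, pr M = ∑ i, (M * (b i : Matrix B B ℂ)).trace • y i := by
    intro M
    change (∑ i, ((trF B).flip (b i : Matrix B B ℂ)).smulRight (y i)) M = _
    rw [LinearMap.sum_apply]
    refine Finset.sum_congr rfl fun i _ => ?_
    rw [LinearMap.smulRight_apply, LinearMap.flip_apply, trF_apply]
  refine ⟨n, fun i => b i, y, pr, ⟨fun M => ?_, fun M Y hY => ?_⟩, hpr⟩
  · rw [hpr]
    exact Submodule.sum_mem _ fun i _ => L.smul_mem _ (hy i)
  · rw [hpr, Finset.sum_mul, trace_sum]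
    have h3 : Y = ∑ i, (Y * y i).trace • (b i : Matrix B B ℂ) := by
      have h4 := congrArg Subtype.val (b.sum_repr ⟨Y, hY⟩)
      rw [Submodule.coe_sum] at h4
      refine h4.symm.trans ?_
      refine Finset.sum_congr rfl fun i _ => ?_
      rw [Submodule.coe_smul, ← h1 i ⟨Y, hY⟩, trF_apply]
    conv_rhs => rw [h3]
    rw [Finset.mul_sum, trace_sum]
    refine Finset.sum_congr rfl fun i _ => ?_
    rw [smul_mul_assoc, trace_smul, mul_smul_comm, trace_smul, smul_eq_mul, smul_eq_mul,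
      trace_mul_comm (y i) Y, mul_comm]

end

end Pool.Agent.Helper49M
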