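import Mathlib
import Pool.Agent.Helper49M.Stm

/-!
# Decomposition of the identity into projectors onto irreducible submodules
-/

set_option linter.unusedSectionVars false

namespace Pool.Agent.Helper49M

open Matrix Module Pool.Agent.Y90 Pool.Agent.Y224.TS

noncomputable section

variable {B : Type} [Fintype B] [DecidableEq B] {L : Submodule ℂ (Matrix B B ℂ)}

/-- Decomposition of an idempotent. -/
theorem dec_aux (hL : CRed L) (m : ℕ) : ∀ e : Matrix B B ℂ, e * e = e → Cm L e →
    finrank ℂ (LinearMap.range (Matrix.toLin' e)) = m →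
    ∃ (n : ℕ) (U : Fin n → Submodule ℂ (B → ℂ)) (π : Fin n → Matrix B B ℂ),
      (∀ i, IrS L (U i)) ∧ (∀ i, Cm L (π i)) ∧ (∀ i v, π i *ᵥ v ∈ U i) ∧
        (∀ i, ∀ u ∈ U i, π i *ᵥ u = u) ∧ ∑ i, π i = e := by
  induction m using Nat.strong_induction_on with
  | _ m ih =>
    intro e he hc hm
    by_cases h0 : LinearMap.range (Matrix.toLin' e) = ⊥
    · refine ⟨0, Fin.elim0, Fin.elim0, fun i => i.elim0, fun i => i.elim0, fun i => i.elim0,
        fun i => i.elim0, ?_⟩
      rw [LinearMap.range_eq_bot] at h0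
      have h1 : e = 0 := by
        apply Matrix.toLin'.injective
        rw [h0, map_zero]
      rw [h1]
      simp
    · have hs : Stab L (LinearMap.range (Matrix.toLin' e)) := by
        rintro X hX _ ⟨w, rfl⟩
        refine ⟨X *ᵥ w, ?_⟩
        rw [Matrix.toLin'_apply, Matrix.toLin'_apply, mulVec_mulVec, mulVec_mulVec, hc X hX]
      obtain ⟨U, hU, hU'⟩ := exists_irS _ _ rfl h0 hs
      obtain ⟨π0, h1, h2, h3⟩ := hL U hU'.2.1
      have hee : ∀ u ∈ LinearMap.range (Matrix.toLin' e), e *ᵥ u = u := by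
        rintro _ ⟨w, rfl⟩
        rw [Matrix.toLin'_apply, mulVec_mulVec, he]
      have hp0 : ∀ v, LinearMap.toMatrix' π0 *ᵥ v = π0 v := by
        intro v
        rw [← Matrix.toLin'_apply, Matrix.toLin'_toMatrix']
      set p := LinearMap.toMatrix' π0 * e with hp
      have hpv : ∀ v, p *ᵥ v = π0 (e *ᵥ v) := by
        intro v
        rw [hp, ← mulVec_mulVec, hp0]
      have hpU : ∀ v, p *ᵥ v ∈ U := fun v => by
        rw [hpv]
        exact h2 _
      have hpu : ∀ u ∈ U, p *ᵥ u = u := fun u hu => by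
        rw [hpv, hee u (hU hu), h3 u hu]
      have hpc : Cm L p := by
        intro X hX
        have h4 := (comm_mat π0 X).1 (h1 X hX)
        rw [hp, mul_assoc, hc X hX, ← mul_assoc, h4, mul_assoc]
      have ext : ∀ {M N : Matrix B B ℂ}, (∀ v, M *ᵥ v = N *ᵥ v) → M = N := by
        intro M N h
        apply Matrix.toLin'.injective
        exact LinearMap.ext h
      have e1 : e * p = p := ext fun v => by
        rw [← mulVec_mulVec, hee _ (hU (hpU v))]
      have e2 : p * e = p := by rw [hp, mul_assoc, he]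
      have e3 : p * p = p := ext fun v => by
        rw [← mulVec_mulVec, hpu _ (hpU v)]
      have hidem : (e - p) * (e - p) = e - p := by
        rw [sub_mul, mul_sub, mul_sub, he, e1, e2, e3, sub_self, sub_zero]
      have hle : LinearMap.range (Matrix.toLin' (e - p)) ≤ LinearMap.range (Matrix.toLin' e) := by
        rintro _ ⟨w, rfl⟩
        rw [Matrix.toLin'_apply, sub_mulVec]
        exact Submodule.sub_mem _ ⟨w, Matrix.toLin'_apply _ _⟩ (hU (hpU w))
      have hne : LinearMap.range (Matrix.toLin' (e - p)) ≠ LinearMap.range (Matrix.toLin' e) := by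
        intro heq
        apply hU'.1
        rw [eq_bot_iff]
        intro u hu
        have h4 : u ∈ LinearMap.range (Matrix.toLin' (e - p)) := by
          rw [heq]
          exact hU hu
        obtain ⟨w, hw⟩ := h4
        rw [Matrix.toLin'_apply] at hw
        have h5 : (e - p) *ᵥ u = u := by rw [← hw, mulVec_mulVec, hidem]
        rw [sub_mulVec, hee u (hU hu), hpu u hu, sub_self] at h5
        rw [Submodule.mem_bot, ← h5]
      have hlt := Submodule.finrank_lt_finrank_of_lt (lt_of_le_of_ne hle hne)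
      obtain ⟨n, V, π, k1, k2, k3, k4, k5⟩ := ih _ (by rw [← hm]; exact hlt) (e - p) hidem
        (fun X hX => by rw [sub_mul, mul_sub, hc X hX, hpc X hX]) rfl
      refine ⟨n + 1, Fin.cons U V, Fin.cons p π, ?_, ?_, ?_, ?_, ?_⟩
      · intro i
        refine Fin.cases ?_ (fun j => ?_) i
        · rw [Fin.cons_zero]; exact hU'
        · rw [Fin.cons_succ]; exact k1 j
      · intro i
        refine Fin.cases ?_ (fun j => ?_) i
        · rw [Fin.cons_zero]; exact hpc
        · rw [Fin.cons_succ]; exact k2 j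
      · intro i
        refine Fin.cases ?_ (fun j => ?_) i
        · rw [Fin.cons_zero, Fin.cons_zero]; exact hpU
        · rw [Fin.cons_succ, Fin.cons_succ]; exact k3 j
      · intro i
        refine Fin.cases ?_ (fun j => ?_) i
        · rw [Fin.cons_zero, Fin.cons_zero]; exact hpu
        · rw [Fin.cons_succ, Fin.cons_succ]; exact k4 j
      · rw [Fin.sum_univ_succ]
        simp only [Fin.cons_zero, Fin.cons_succ]
        rw [k5]
        abel

theorem dec : S_dec := by
  intro B _ _ L hL
  exact dec_aux hL _ 1 (one_mul 1) (fun X _ => by rw [one_mul, mul_one]) rfl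

/-- Schur's lemma. -/
theorem schur {U : Submodule ℂ (B → ℂ)} (hU : IrS L U) {X : Matrix B B ℂ} (hX : Cm L X)
    (hs : ∀ u ∈ U, X *ᵥ u ∈ U) : ∃ c : ℂ, ∀ u ∈ U, X *ᵥ u = c • u := by
  have hnt : Nontrivial U := Submodule.nontrivial_iff_ne_bot.2 hU.1
  obtain ⟨c, hc⟩ := Module.End.exists_eigenvalue ((Matrix.toLin' X).restrict (p := U) (q := U) hs)
  obtain ⟨u0, hu0⟩ := hc.exists_hasEigenvector
  refine ⟨c, ?_⟩
  have hk : ∀ u, u ∈ U ⊓ LinearMap.ker (Matrix.toLin' (X - c • 1)) ↔ u ∈ U ∧ X *ᵥ u = c • u := by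
    intro u
    rw [Submodule.mem_inf, LinearMap.mem_ker, Matrix.toLin'_apply, sub_mulVec, sub_eq_zero,
      smul_mulVec, one_mulVec]
  have hst : Stab L (U ⊓ LinearMap.ker (Matrix.toLin' (X - c • 1))) := by
    intro Y hY u hu
    rw [hk] at hu ⊢
    refine ⟨hU.2.1 Y hY u hu.1, ?_⟩
    rw [mulVec_mulVec, hX Y hY, ← mulVec_mulVec, hu.2, mulVec_smul]
  rcases hU.2.2 _ inf_le_left hst with h | h
  · exfalso
    have h1 : (u0 : B → ℂ) ∈ U ⊓ LinearMap.ker (Matrix.toLin' (X - c • 1)) := by
      rw [hk]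
      exact ⟨u0.2, congrArg Subtype.val hu0.apply_eq_smul⟩
    rw [h, Submodule.mem_bot] at h1
    exact hu0.2 (Subtype.ext h1)
  · intro u hu
    rw [← h, hk] at hu
    exact hu.2

end

end Pool.Agent.Helper49M
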