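import Mathlib
import Pool.Agent.Helper49M.Dec
import Pool.Agent.W516.Cartan

/-!
# The trace form of a completely reducible Lie algebra generated by involutions
-/

set_option linter.unusedSectionVars false

namespace Pool.Agent.Helper49M

open Matrix Module Pool.Agent.Y90 Pool.Agent.Y224.TS
open Pool.Agent.W516.KC (Semi central_of_trace)

noncomputable section

variable {B : Type} [Fintype B] [DecidableEq B]

theorem tr_lin (M : Matrix B B ℂ) : LinearMap.trace ℂ (B → ℂ) (Matrix.toLin' M) = M.trace :=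
  Matrix.trace_toLin'_eq M

/-- The radical of the trace form is central. -/
theorem rad_central {L : Submodule ℂ (Matrix B B ℂ)} (hL : CRed L)
    (hbr : ∀ X ∈ L, ∀ Y ∈ L, X * Y - Y * X ∈ L) {X : Matrix B B ℂ} (hX : X ∈ L)
    (h : ∀ Y ∈ L, (X * Y).trace = 0) : Cm L X := by
  have hm : ∀ {M : Matrix B B ℂ}, M ∈ L →
      (Matrix.toLin' M) ∈ L.map (Matrix.toLin' (R := ℂ) (m := B) (n := B)).toLinearMap :=
    fun {M} hM => ⟨M, hM, rfl⟩
  have hss : Semi (L.map (Matrix.toLin' (R := ℂ) (m := B) (n := B)).toLinearMap :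
      Submodule ℂ (Module.End ℂ (B → ℂ))) := by
    intro U hU
    have hs : Stab L U := fun M hM u hu => hU _ (hm hM) u hu
    obtain ⟨π, h1, h2, h3⟩ := hL U hs
    refine ⟨LinearMap.ker π, ?_, ?_⟩
    · rintro _ ⟨M, hM, rfl⟩ u hu
      rw [LinearMap.mem_ker] at hu ⊢
      change π (M *ᵥ u) = 0
      rw [h1 M hM, hu, mulVec_zero]
    · rw [isCompl_iff, disjoint_iff, codisjoint_iff]
      constructor
      · rw [eq_bot_iff]
        rintro x ⟨hx, hx'⟩
        rw [Submodule.mem_bot, ← h3 x hx]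
        exact hx'
      · rw [eq_top_iff]
        intro v _
        have h4 : v = π v + (v - π v) := by abel
        rw [h4]
        refine Submodule.add_mem_sup (h2 v) ?_
        rw [LinearMap.mem_ker, map_sub, h3 _ (h2 v), sub_self]
  have hbr' : ∀ X ∈ (L.map (Matrix.toLin' (R := ℂ) (m := B) (n := B)).toLinearMap :
      Submodule ℂ (Module.End ℂ (B → ℂ))),
      ∀ Y ∈ (L.map (Matrix.toLin' (R := ℂ) (m := B) (n := B)).toLinearMap :
      Submodule ℂ (Module.End ℂ (B → ℂ))), X * Y - Y * X ∈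
      (L.map (Matrix.toLin' (R := ℂ) (m := B) (n := B)).toLinearMap :
      Submodule ℂ (Module.End ℂ (B → ℂ))) := by
    rintro _ ⟨M, hM, rfl⟩ _ ⟨N, hN, rfl⟩
    refine ⟨M * N - N * M, hbr M hM N hN, ?_⟩
    change Matrix.toLin' (M * N - N * M) = Matrix.toLin' M * Matrix.toLin' N -
      Matrix.toLin' N * Matrix.toLin' M
    rw [map_sub, Matrix.toLin'_mul, Matrix.toLin'_mul]
    rfl
  intro Y hY
  have h1 := central_of_trace _ hss hbr' (hm hX) (by
    rintro _ ⟨M, hM, rfl⟩
    have h2 : Matrix.toLin' X * Matrix.toLin' M = Matrix.toLin' (X * M) :=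
      (Matrix.toLin'_mul X M).symm
    change LinearMap.trace ℂ (B → ℂ) (Matrix.toLin' X * Matrix.toLin' M) = 0
    rw [h2, tr_lin, h M hM]) _ (hm hY)
  apply Matrix.toLin'.injective
  rw [Matrix.toLin'_mul, Matrix.toLin'_mul]
  exact h1.symm

/-- Generators and brackets. -/
theorem LT_split (S : Set (Matrix B B ℂ)) : Pool.Agent.Y224.TS.LT S ≤ Submodule.span ℂ S ⊔
    Submodule.span ℂ {Z | ∃ A ∈ Pool.Agent.Y224.TS.LT S, ∃ C ∈ Pool.Agent.Y224.TS.LT S,
      Z = A * C - C * A} := by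
  have hle : Submodule.span ℂ S ⊔ Submodule.span ℂ {Z | ∃ A ∈ Pool.Agent.Y224.TS.LT S,
      ∃ C ∈ Pool.Agent.Y224.TS.LT S, Z = A * C - C * A} ≤ Pool.Agent.Y224.TS.LT S := by
    refine sup_le (Submodule.span_le.2 fun D hD => LT_gen hD) (Submodule.span_le.2 ?_)
    rintro _ ⟨A, hA, C, hC, rfl⟩
    exact LT_br hA hC
  refine LT_le (fun D hD => ?_) fun A hA C hC => ?_
  · exact Submodule.mem_sup_left (Submodule.subset_span hD)
  · exact Submodule.mem_sup_right (Submodule.subset_span ⟨A, hle hA, C, hle hC, rfl⟩)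

/-- Brackets are orthogonal to the commutant. -/
theorem tr_bracket {L : Submodule ℂ (Matrix B B ℂ)} {P : Matrix B B ℂ} (hP : Cm L P)
    {x : Matrix B B ℂ} (hx : x ∈ Submodule.span ℂ {Z | ∃ A ∈ L, ∃ C ∈ L, Z = A * C - C * A}) :
    (P * x).trace = 0 := by
  induction hx using Submodule.span_induction with
  | mem x hx =>
    obtain ⟨A, hA, C, hC, rfl⟩ := hx
    rw [mul_sub, trace_sub, ← mul_assoc, hP A hA, mul_assoc, trace_mul_comm A, mul_assoc, sub_self]
  | zero => rw [mul_zero, trace_zero]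
  | add a b _ _ ha hb => rw [mul_add, trace_add, ha, hb, add_zero]
  | smul c a _ ha => rw [mul_smul_comm, trace_smul, ha, smul_zero]

theorem trn_of (hdec : S_dec) : S_trn := by
  intro B _ _ S hsq hcr X hX htr
  have hbr : ∀ X ∈ Pool.Agent.Y224.TS.LT S, ∀ Y ∈ Pool.Agent.Y224.TS.LT S,
      X * Y - Y * X ∈ Pool.Agent.Y224.TS.LT S := fun X hX Y hY => LT_br hX hY
  have hc := rad_central hcr hbr hX htr
  obtain ⟨n, U, π, k1, k2, k3, k4, k5⟩ := hdec B _ hcr
  have hproj : ∀ i, LinearMap.IsProj (U i) (Matrix.toLin' (π i)) := fun i =>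
    ⟨fun v => k3 i v, fun u hu => k4 i u hu⟩
  have hd : ∀ i, (π i).trace = (finrank ℂ (U i) : ℂ) := by
    intro i
    rw [← tr_lin]
    exact (hproj i).trace
  have hdpos : ∀ i, 0 < finrank ℂ (U i) := by
    intro i
    rw [Nat.pos_iff_ne_zero, ne_eq, Submodule.finrank_eq_zero]
    exact (k1 i).1
  -- the scalars
  have hsc : ∀ i, ∃ c : ℂ, ∀ u ∈ U i, X *ᵥ u = c • u := fun i =>
    schur (k1 i) hc fun u hu => (k1 i).2.1 X hX u hu
  choose lam hlam using hsc
  have hXπ : ∀ i, X * π i = lam i • π i := by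
    intro i
    apply Matrix.toLin'.injective
    refine LinearMap.ext fun v => ?_
    rw [Matrix.toLin'_apply, Matrix.toLin'_apply, ← mulVec_mulVec, hlam i _ (k3 i v), smul_mulVec]
  -- integral traces
  have hint : ∀ i, ∀ D ∈ S, ∃ m : ℚ, (π i * D).trace = (m : ℂ) := by
    intro i D hD
    have h1 : Matrix.toLin' D * Matrix.toLin' D = (1 : Module.End ℂ (B → ℂ)) := by
      have h2 : Matrix.toLin' D * Matrix.toLin' D = Matrix.toLin' (D * D) :=
        (Matrix.toLin'_mul D D).symm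
      rw [h2, hsq D hD, Matrix.toLin'_one]
      rfl
    have h2 := trace_proj (π := Matrix.toLin' (π i)) (D := Matrix.toLin' D) h1
      (U := U i) (fun v => k3 i v) (fun u hu => k4 i u hu) (fun v => by
        rw [Matrix.toLin'_apply, Matrix.toLin'_apply, Matrix.toLin'_apply, Matrix.toLin'_apply,
          mulVec_mulVec, mulVec_mulVec, k2 i D (LT_gen hD)])
    have h3 : Matrix.toLin' (π i) * Matrix.toLin' D = Matrix.toLin' (π i * D) :=
      (Matrix.toLin'_mul (π i) D).symm
    rw [h3, tr_lin] at h2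
    refine ⟨(finrank ℂ (es (Matrix.toLin' D) (U i) 1) : ℚ) -
      finrank ℂ (es (Matrix.toLin' D) (U i) (-1)), ?_⟩
    rw [h2]
    push_cast
    rfl
  -- expansion of `X`
  obtain ⟨a, ha, x, hx, rfl⟩ := Submodule.mem_sup.1 (LT_split S hX)
  obtain ⟨m, c, D, rfl⟩ := Submodule.mem_span_set'.1 ha
  choose q hq using fun i k => hint i (D k).1 (D k).2
  set X := ∑ k, c k • ((D k : Matrix B B ℂ)) + x with hXdef
  have hlq : ∀ i, lam i * (finrank ℂ (U i) : ℂ) = ∑ k, c k * ((q i k : ℚ) : ℂ) := by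
    intro i
    have h1 : (π i * X).trace = lam i * (finrank ℂ (U i) : ℂ) := by
      rw [trace_mul_comm, hXπ, trace_smul, hd, smul_eq_mul]
    rw [← h1, hXdef, mul_add, trace_add, tr_bracket (k2 i) hx, add_zero, Finset.mul_sum, trace_sum]
    refine Finset.sum_congr rfl fun k _ => ?_
    rw [mul_smul_comm, trace_smul, hq, smul_eq_mul]
  -- rational parts
  have hf : ∀ (f : ℂ →ₗ[ℚ] ℚ) (i : Fin n), f (lam i) = 0 := by
    intro f
    have hfq : ∀ i, f (lam i) * (finrank ℂ (U i) : ℚ) = ∑ k, f (c k) * q i k := by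
      intro i
      have h1 := congrArg f (hlq i)
      have e : ∀ (z : ℂ) (r : ℚ), f (z * (r : ℂ)) = f z * r := by
        intro z r
        have h2 : z * (r : ℂ) = r • z := by rw [Rat.smul_def, mul_comm]
        rw [h2, map_smul, smul_eq_mul, mul_comm]
      rw [map_sum] at h1
      have h3 : ((finrank ℂ (U i) : ℚ) : ℂ) = (finrank ℂ (U i) : ℂ) := by push_cast; rfl
      rw [← h3, e] at h1
      rw [h1]
      exact Finset.sum_congr rfl fun k _ => e _ _
    set X' : Matrix B B ℂ := ∑ k, ((f (c k) : ℚ) : ℂ) • ((D k : Matrix B B ℂ)) with hX'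
    have hX'm : X' ∈ Pool.Agent.Y224.TS.LT S := Submodule.sum_mem _ fun k _ =>
      Submodule.smul_mem _ _ (LT_gen (D k).2)
    have hπX' : ∀ i, (π i * X').trace = ((f (lam i) * (finrank ℂ (U i) : ℚ) : ℚ) : ℂ) := by
      intro i
      rw [hfq, hX', Finset.mul_sum, trace_sum]
      push_cast
      refine Finset.sum_congr rfl fun k _ => ?_
      rw [mul_smul_comm, trace_smul, hq, smul_eq_mul]
    have h1 : (0 : ℂ) = ∑ i, lam i * ((f (lam i) * (finrank ℂ (U i) : ℚ) : ℚ) : ℂ) := by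
      rw [← htr X' hX'm]
      have h2 : X * X' = ∑ i, lam i • (π i * X') := by
        have h2' : X * X' = X * (∑ i, π i) * X' := by rw [k5, mul_one]
        have h2'' : X * (∑ i, π i) = ∑ i, lam i • π i := by
          rw [Finset.mul_sum]
          exact Finset.sum_congr rfl fun i _ => hXπ i
        rw [h2', h2'', Finset.sum_mul]
        exact Finset.sum_congr rfl fun i _ => by rw [smul_mul_assoc]
      rw [h2, trace_sum]
      exact Finset.sum_congr rfl fun i _ => by rw [trace_smul, hπX', smul_eq_mul]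
    have h2 := congrArg f h1
    rw [map_zero, map_sum] at h2
    have h3 : ∀ i ∈ Finset.univ, (0 : ℚ) ≤ f (lam i) * f (lam i) * (finrank ℂ (U i) : ℚ) :=
      fun i _ => mul_nonneg (mul_self_nonneg _) (Nat.cast_nonneg _)
    have h4 : ∑ i, f (lam i) * f (lam i) * (finrank ℂ (U i) : ℚ) = 0 := by
      rw [h2]
      refine Finset.sum_congr rfl fun i _ => ?_
      have h5 : lam i * ((f (lam i) * (finrank ℂ (U i) : ℚ) : ℚ) : ℂ) =
          (f (lam i) * (finrank ℂ (U i) : ℚ)) • lam i := by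
        rw [Rat.smul_def, mul_comm]
      rw [h5, map_smul, smul_eq_mul]
      ring
    intro i
    have h5 := (Finset.sum_eq_zero_iff_of_nonneg h3).1 h4 i (Finset.mem_univ i)
    have h6 : (finrank ℂ (U i) : ℚ) ≠ 0 := by exact_mod_cast (hdpos i).ne'
    have h7 := (mul_eq_zero.1 h5).resolve_right h6
    exact mul_self_eq_zero.1 h7
  have hlam0 : ∀ i, lam i = 0 := fun i =>
    (Module.forall_dual_apply_eq_zero_iff ℚ (lam i)).1 fun f => hf f i
  rw [← mul_one X, ← k5, Finset.mul_sum]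
  exact Finset.sum_eq_zero fun i _ => by rw [hXπ, hlam0, zero_smul]

theorem trn : S_trn := trn_of dec

end

end Pool.Agent.Helper49M
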