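import Mathlib
import Pool.Agent.Helper49M.Core
import Pool.Agent.Helper49M.Nd
import Pool.Agent.Helper49M.Trn
import Pool.Agent.Helper49M.Frm

/-!
# The degree four criterion for sets of involutions
-/

set_option linter.unusedSectionVars false

namespace Pool.Agent.Helper49M

open Matrix Module Pool.Agent.W437.HC Pool.Agent.W437.HD Pool.Agent.W548.Odd Pool.Agent.W522.U
open Pool.Agent.H204R3.SP Pool.Agent.H204R3.GP Pool.Agent.Y90 Pool.Agent.Y224.TS

noncomputable section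

variable {G : ℕ} {Z : Matrix (Fin G) (Fin G) ℂ}
  {S : Set (Matrix (Fin G ⊕ Fin G) (Fin G ⊕ Fin G) ℂ)}

/-- A set of symplectic involutions with the same commutant as the Lie algebra of the period matrix,
which contains for each conjugate of the complex structure an element with the same traces on the
commutant. -/
structure TW (Z : Matrix (Fin G) (Fin G) ℂ)
    (S : Set (Matrix (Fin G ⊕ Fin G) (Fin G ⊕ Fin G) ℂ)) : Prop where
  sq : ∀ D ∈ S, D * D = 1
  sp : ∀ D ∈ S, ∀ u v, om G (D *ᵥ u) v + om G u (D *ᵥ v) = 0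
  comm : ∀ P : Matrix (Fin G ⊕ Fin G) (Fin G ⊕ Fin G) ℂ,
    (∀ D ∈ S, P * D = D * P) ↔ ∀ X ∈ LZ Z, P * X = X * P
  ex : ∀ σ : ℂ ≃+* ℂ, ∃ D ∈ S, ∀ P : Matrix (Fin G ⊕ Fin G) (Fin G ⊕ Fin G) ℂ,
    (∀ X ∈ LZ Z, P * X = X * P) → (P * D).trace = (P * DS Z σ).trace
  cr : CRed (Pool.Agent.Y224.TS.LT S)

/-- The permutations of the four variables which generate the group of order eight. -/
def WW : Set (Equiv.Perm (Fin 2 × Fin 2)) :=
  {Equiv.swap (0, 0) (0, 1), Equiv.prodCongr (Equiv.swap 0 1) (Equiv.refl _)}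

namespace TW

variable (h : TW Z S)
include h

/-- The commutant. -/
theorem comm' (P : Matrix (Fin G ⊕ Fin G) (Fin G ⊕ Fin G) ℂ) :
    Cm (Pool.Agent.Y224.TS.LT S) P ↔ ∀ X ∈ LZ Z, P * X = X * P := by
  rw [← h.comm]
  constructor
  · exact fun h1 D hD => h1 D (LT_gen hD)
  · intro h1
    let L : Submodule ℂ (Matrix (Fin G ⊕ Fin G) (Fin G ⊕ Fin G) ℂ) :=
      { carrier := {X | P * X = X * P}
        add_mem' := fun {X Y} hX hY => by
          change P * (X + Y) = (X + Y) * P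
          rw [mul_add, add_mul, show P * X = X * P from hX, show P * Y = Y * P from hY]
        zero_mem' := by
          change P * 0 = 0 * P
          rw [mul_zero, zero_mul]
        smul_mem' := fun c X hX => by
          change P * (c • X) = (c • X) * P
          rw [mul_smul_comm, smul_mul_assoc, show P * X = X * P from hX] }
    have hL : Pool.Agent.Y224.TS.LT S ≤ L := by
      refine LT_le (fun D hD => h1 D hD) (fun A hA C hC => ?_)
      have hA' : P * A = A * P := hA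
      have hC' : P * C = C * P := hC
      change P * (A * C - C * A) = (A * C - C * A) * P
      rw [mul_sub, sub_mul, ← mul_assoc, hA', mul_assoc, hC', ← mul_assoc, ← mul_assoc P C A, hC',
        mul_assoc C P A, hA', ← mul_assoc]
    exact fun X hX => hL hX

theorem sp' {X : Matrix (Fin G ⊕ Fin G) (Fin G ⊕ Fin G) ℂ}
    (hX : X ∈ Pool.Agent.Y224.TS.LT S) (u v : Fin G ⊕ Fin G → ℂ) :
    om G (X *ᵥ u) v + om G u (X *ᵥ v) = 0 := by
  let L : Submodule ℂ (Matrix (Fin G ⊕ Fin G) (Fin G ⊕ Fin G) ℂ) :=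
    { carrier := {X | ∀ u v, om G (X *ᵥ u) v + om G u (X *ᵥ v) = 0}
      add_mem' := fun {X Y} hX hY u v => by
        have h1 := hX u v
        have h2 := hY u v
        rw [add_mulVec, add_mulVec, map_add, map_add, LinearMap.add_apply]
        linear_combination h1 + h2
      zero_mem' := fun u v => by
        rw [zero_mulVec, zero_mulVec, map_zero, map_zero, LinearMap.zero_apply, add_zero]
      smul_mem' := fun c X hX u v => by
        have h1 := hX u v
        rw [smul_mulVec, smul_mulVec, map_smul, map_smul, LinearMap.smul_apply, ← smul_add, h1,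
          smul_zero] }
  have hL : Pool.Agent.Y224.TS.LT S ≤ L :=
    LT_le (fun D hD => h.sp D hD) (fun A hA C hC => om_br hA hC)
  exact hL hX u v

/-- The Lie algebra contains the conjugates of the complex structure if they normalize it. -/
theorem core (hn : ∀ σ : ℂ ≃+* ℂ, ∀ X ∈ Pool.Agent.Y224.TS.LT S,
    DS Z σ * X - X * DS Z σ ∈ Pool.Agent.Y224.TS.LT S) : LZ Z ≤ Pool.Agent.Y224.TS.LT S := by
  have hT := trn _ S h.sq h.cr
  obtain ⟨n, x, y, pr, hp, -⟩ := pr_ex _ _ hT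
  refine LZ_le (fun σ => ?_) fun A hA C hC => LT_br hA hC
  have hbr : ∀ X ∈ Pool.Agent.Y224.TS.LT S, ∀ Y ∈ Pool.Agent.Y224.TS.LT S,
      X * Y - Y * X ∈ Pool.Agent.Y224.TS.LT S := fun X hX Y hY => LT_br hX hY
  have hY := hp.comm hT hbr (hn σ)
  have h0 : DS Z σ - pr (DS Z σ) = 0 := by
    refine nd _ _ h.cr _ hY fun Q hQ => ?_
    have hQ' := hp.comm hT hbr (M := Q) fun X hX => by
      rw [hQ X hX, sub_self]
      exact Submodule.zero_mem _
    obtain ⟨D', hD', htr⟩ := h.ex σ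
    have e0 : Q = pr Q + (Q - pr Q) := by abel
    have e1 : (pr Q * (DS Z σ - pr (DS Z σ))).trace = 0 := by
      rw [trace_mul_comm]
      exact hp.orth _ (hp.mem Q)
    have e2 : ((Q - pr Q) * (DS Z σ - pr (DS Z σ))).trace = 0 := by
      rw [mul_sub, trace_sub, hp.orth Q (hp.mem _), sub_zero,
        ← htr _ ((h.comm' _).1 hQ')]
      exact hp.orth Q (LT_gen hD')
    rw [e0, add_mul, trace_add, e1, e2, add_zero]
  rw [sub_eq_zero.1 h0]
  exact hp.mem _

/-- **The Casimir form.** -/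
theorem exists_form (hZ : PM Z) :
    ∃ F : MultilinearMap ℂ (fun _ : Fin 2 × Fin 2 => Fin G ⊕ Fin G → ℂ) ℂ,
      (∀ (R R' : Matrix (Fin G ⊕ Fin G) (Fin G ⊕ Fin G) ℂ) (c : ℂ), R * R' = 1 → R' * R = 1 →
        (∀ u v, om G (R *ᵥ u) (R *ᵥ v) = c * om G u v) →
        (∀ X ∈ Pool.Agent.Y224.TS.LT S, R * X * R' ∈ Pool.Agent.Y224.TS.LT S) →
        (∀ X ∈ Pool.Agent.Y224.TS.LT S, R' * X * R ∈ Pool.Agent.Y224.TS.LT S) →
          ∀ v, F (fun k => R *ᵥ v k) = c ^ 2 * F v) ∧
      (∀ w ∈ WW, ∀ v : Fin 2 × Fin 2 → Fin G ⊕ Fin G → ℂ, F (fun k => v (w k)) = F v) ∧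
      ((∀ σ : ℂ ≃+* ℂ, Kills (ph (Fin G ⊕ Fin G) (DS Z σ)) F) →
        LZ Z ≤ Pool.Agent.Y224.TS.LT S) := by
  have hT := trn _ S h.sq h.cr
  obtain ⟨n, x, y, pr, hp, hpr⟩ := pr_ex _ _ hT
  obtain ⟨f1, f2⟩ := frm G n x y pr hpr
  refine ⟨casF x y, fun R R' c hR hR' hom h5 h6 v => ?_, fun w hw v => ?_, fun hk => ?_⟩
  · exact inv G n _ x y pr hT hp hpr R R' c hR hR' hom h5 h6 v
  · rw [f2, f2]
    rcases hw with hw | hw
    · rw [hw]
      have e1 : Equiv.swap ((0 : Fin 2), (0 : Fin 2)) (0, 1) (1, 0) = (1, 0) := by decide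
      have e2 : Equiv.swap ((0 : Fin 2), (0 : Fin 2)) (0, 1) (1, 1) = (1, 1) := by decide
      have e3 : Equiv.swap ((0 : Fin 2), (0 : Fin 2)) (0, 1) (0, 0) = (0, 1) := by decide
      have e4 : Equiv.swap ((0 : Fin 2), (0 : Fin 2)) (0, 1) (0, 1) = (0, 0) := by decide
      rw [e1, e2, e3, e4]
      have h1 := h.sp' (hp.mem (Am (v (1, 0)) (v (1, 1)))) (v (0, 1)) (v (0, 0))
      rw [om_anti (v (0, 1))] at h1
      linear_combination h1
    · rw [Set.mem_singleton_iff.1 hw]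
      have e1 : Equiv.prodCongr (Equiv.swap (0 : Fin 2) 1) (Equiv.refl (Fin 2)) (1, 0) = (0, 0) := by
        decide
      have e2 : Equiv.prodCongr (Equiv.swap (0 : Fin 2) 1) (Equiv.refl (Fin 2)) (1, 1) = (0, 1) := by
        decide
      have e3 : Equiv.prodCongr (Equiv.swap (0 : Fin 2) 1) (Equiv.refl (Fin 2)) (0, 0) = (1, 0) := by
        decide
      have e4 : Equiv.prodCongr (Equiv.swap (0 : Fin 2) 1) (Equiv.refl (Fin 2)) (0, 1) = (1, 1) := by
        decide
      rw [e1, e2, e3, e4, ← f1, ← f1, ← hp.tr _ _ (hp.mem _), trace_mul_comm, hp.tr _ _ (hp.mem _)]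
  · refine h.core fun σ X hX => ?_
    exact kil G n _ x y pr hT hp hpr (DS Z σ) (hZ.om_sp (DS_mem σ)) (hk σ) X hX

end TW

end

end Pool.Agent.Helper49M
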