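import Mathlib
import Pool.Agent.Helper49M.Stm

/-!
# The Casimir form of the Lie algebra of the Hodge-Tate elements: the sharper descent
-/

set_option linter.unusedSectionVars false

namespace Pool.Agent.Helper49M

open Matrix Module Pool.Agent.W437.HC Pool.Agent.W437.HD Pool.Agent.W548.Odd Pool.Agent.W522.U
open Pool.Agent.H204R3.SP Pool.Agent.H204R3.GP Pool.Agent.Y90 Pool.Agent.Y224.TS TensorProduct
open Pool.Agent.Y224.TS.St (IsHodgeTate IsTateModule)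
open Pool.Agent.TH504.CB
open Pool.Agent.N183.TS Pool.Agent.N183.U5

/-- **DSC2.** As `S_dsc`, but the hypothesis is only needed for the `K`-forms `t` for which all the
elements of the given subgroup `Δ` act through `χ ^ m` (`Δ` need not have finite index) and which
are symmetric under the given set `W` of permutations of the variables. The proof is the same: the
form `t j (v) = l j (F (eY (1 ⊗ v)))` has these two properties if `F` has them. -/
def S_dsc2 : Prop := ∀ {H T : Type} [AddCommGroup H] [Module ℚ H] [AddCommGroup T] [Module ℂ T]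
  {K : Type} [Field K] [CharZero K] [Algebra K ℂ] {Γ : Type} [Group Γ] (per : H →+ T)
  (ρ : Representation K Γ (K ⊗[ℚ] H)) (χ : Γ →* K) (G : ℕ) (Z : Matrix (Fin G) (Fin G) ℂ)
  (b : Basis (Fin G ⊕ Fin G) ℚ H),
  Cht (per.comp b.equivFun.symm.toLinearMap.toAddMonoidHom) (JR Z) →
  ∀ (m : ℕ) (Δ : Subgroup Γ) (W : Set (Equiv.Perm (Fin m × Fin 2))),
  (∀ t : MultilinearMap K (fun _ : Fin m × Fin 2 => K ⊗[ℚ] H) K,
    (∀ s ∈ Δ, ∀ v, t (fun k => ρ s (v k)) = χ s ^ m * t v) →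
    (∀ w ∈ W, ∀ v, t (fun k => v (w k)) = t v) →
    ∃ (n : ℕ) (c : Fin n → K) (f : Fin n → MultilinearMap ℚ (fun _ : Fin m × Fin 2 => H) ℚ),
    (∀ j, IsHodgeTensor per (f j)) ∧
      ∀ v : Fin m × Fin 2 → H, t (fun k => (1 : K) ⊗ₜ[ℚ] v k) = ∑ j, c j * ((f j v : ℚ) : K)) →
  ∀ F : MultilinearMap ℂ (fun _ : Fin m × Fin 2 => Fin G ⊕ Fin G → ℂ) ℂ,
    (∀ s ∈ Δ, ∀ v : Fin m × Fin 2 → Fin G ⊕ Fin G → ℂ,
      F (fun k => mt b (bcr ρ ℂ s) *ᵥ v k) = algebraMap K ℂ (χ s) ^ m * F v) →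
    (∀ w ∈ W, ∀ v : Fin m × Fin 2 → Fin G ⊕ Fin G → ℂ, F (fun k => v (w k)) = F v) →
    ∀ σ : ℂ ≃+* ℂ, Kills (ph (Fin G ⊕ Fin G) (DS Z σ)) F

end Pool.Agent.Helper49M
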