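import Mathlib
import Pool.Agent.Helper49M.Stm2

/-!
# Descent of complex Tate forms, and the conjugates of the complex structure
-/

set_option linter.unusedSectionVars false

namespace Pool.Agent.Helper49M

open Matrix Module Pool.Agent.W437.HC Pool.Agent.W437.HD Pool.Agent.W548.Odd Pool.Agent.W522.U
open Pool.Agent.H204R3.SP Pool.Agent.H204R3.GP Pool.Agent.Y90 Pool.Agent.Y224.TS TensorProduct
open Pool.Agent.Y224.TS.St (IsHodgeTate IsTateModule)
open Pool.Agent.TH504.CB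
open Pool.Agent.N183.TS Pool.Agent.N183.U5

noncomputable section

section ten

variable {B : Type*} [Fintype B] [DecidableEq B] {κ : Type*} [Fintype κ] [DecidableEq κ]
  {T : Type*} [AddCommGroup T] [Module ℂ T] {per : (B → ℚ) →+ T} {J : Matrix B B ℝ}

/-- Hodge tensors are killed by the complex structure. -/
theorem isH_ten (h : Cht per J) {f : MultilinearMap ℚ (fun _ : κ => B → ℚ) ℚ}
    (hf : IsHodgeTensor per f) : IsH (DJ J) (CF f) := by
  obtain ⟨P, I, hP1, hP2, -, -⟩ := h.ex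
  obtain ⟨ψ, hψ1, hψ2⟩ := hf
  rw [act_real (J := J) (D := DJ J) rfl]
  have h1 : ∀ x : κ → B → ℝ, ψ (fun k => P (x k)) = evalF (cst ℝ (CF f)) x := by
    intro x
    rw [show ψ (fun k => P (x k)) = ψ.compLinearMap (fun _ => P) x from rfl, multi_eq]
    congr 1
    funext I
    change ψ (fun k => P (Pi.single (I k) 1)) = ((f (fun k => Pi.single (I k) 1) : ℚ) : ℝ)
    rw [← hψ1]
    congr 1
    funext k
    rw [← hP1, single_castR]
  apply act_of_rotate
  intro θ x
  rw [← h1, ← h1]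
  refine Eq.trans ?_ (hψ2 (Complex.cos θ + Complex.sin θ * Complex.I) (by
    rw [← Complex.exp_mul_I, Complex.norm_exp_ofReal_mul_I]) _)
  congr 1
  funext k
  rw [map_add, map_smul, map_smul, hP2, smul_rot, Complex.ofReal_cos, Complex.ofReal_sin]

/-- The conjugates of a matrix which kills a rational form kill it. -/
theorem isH_conj {D : Matrix B B ℂ} {c : (κ → B) → ℚ} (h : IsH D c) (σ : ℂ ≃+* ℂ) :
    IsH (D.map σ) c := by
  funext I
  have h1 := congrArg σ (congrFun h I)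
  rw [Pi.zero_apply, map_zero] at h1
  rw [Pi.zero_apply, ← h1]
  simp [act, cst, map_sum]

theorem act_sum_right {ι : Type*} (s : Finset ι) (X : Matrix B B ℂ) (c : ι → (κ → B) → ℂ) :
    act X (∑ i ∈ s, c i) = ∑ i ∈ s, act X (c i) := by
  classical
  induction s using Finset.induction_on with
  | empty => rw [Finset.sum_empty, Finset.sum_empty, act_zero_right]
  | insert a s ha ih => rw [Finset.sum_insert ha, Finset.sum_insert ha, act_add_right, ih]

end ten

section comp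

variable {H : Type} [AddCommGroup H] [Module ℚ H] {K : Type} [Field K] [CharZero K] [Algebra K ℂ]
  {Γ : Type} [Group Γ] {ρ : Representation K Γ (K ⊗[ℚ] H)} {χ : Γ →* K} {G : ℕ}
  (b : Basis (Fin G ⊕ Fin G) ℚ H) {m : ℕ}

variable (K) in
/-- The inclusion of the Tate module in its extension of scalars, in coordinates. -/
def inK : (K ⊗[ℚ] H) →ₗ[K] (Fin G ⊕ Fin G → ℂ) :=
  ((eY K b).toLinearMap.restrictScalars K) ∘ₗ (TensorProduct.mk K ℂ (K ⊗[ℚ] H) 1)

theorem inK_apply (v : K ⊗[ℚ] H) : inK K b v = eY K b ((1 : ℂ) ⊗ₜ[K] v) := rfl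

/-- The component of a form. -/
def tF (l : ℂ →ₗ[K] K) (F : MultilinearMap ℂ (fun _ : Fin m × Fin 2 => Fin G ⊕ Fin G → ℂ) ℂ) :
    MultilinearMap K (fun _ : Fin m × Fin 2 => K ⊗[ℚ] H) K :=
  l.compMultilinearMap ((F.restrictScalars K).compLinearMap (fun _ => inK K b))

theorem tF_apply (l : ℂ →ₗ[K] K)
    (F : MultilinearMap ℂ (fun _ : Fin m × Fin 2 => Fin G ⊕ Fin G → ℂ) ℂ)
    (v : Fin m × Fin 2 → K ⊗[ℚ] H) : tF b l F v = l (F (fun k => eY K b ((1 : ℂ) ⊗ₜ[K] v k))) :=
  rfl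

/-- The components of a complex Tate form are Tate forms. -/
theorem tF_tate (l : ℂ →ₗ[K] K)
    {F : MultilinearMap ℂ (fun _ : Fin m × Fin 2 => Fin G ⊕ Fin G → ℂ) ℂ} {s : Γ}
    (hF : ∀ v : Fin m × Fin 2 → Fin G ⊕ Fin G → ℂ,
      F (fun k => mt b (bcr ρ ℂ s) *ᵥ v k) = algebraMap K ℂ (χ s) ^ m * F v)
    (v : Fin m × Fin 2 → K ⊗[ℚ] H) :
    tF b l F (fun k => ρ s (v k)) = χ s ^ m * tF b l F v := by
  rw [tF_apply, tF_apply]
  have h1 := hF (fun k => eY K b ((1 : ℂ) ⊗ₜ[K] v k))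
  have h2 : (fun k => mt b (bcr ρ ℂ s) *ᵥ eY K b ((1 : ℂ) ⊗ₜ[K] v k)) =
      fun k => eY K b ((1 : ℂ) ⊗ₜ[K] ρ s (v k)) := by
    funext k
    rw [mt_mulVec, bcr_tmul]
  rw [h2] at h1
  rw [h1, ← map_pow, ← Algebra.smul_def, map_smul, smul_eq_mul]

/-- The components of a symmetric form are symmetric. -/
theorem tF_perm (l : ℂ →ₗ[K] K)
    {F : MultilinearMap ℂ (fun _ : Fin m × Fin 2 => Fin G ⊕ Fin G → ℂ) ℂ}
    {w : Equiv.Perm (Fin m × Fin 2)}
    (hF : ∀ v : Fin m × Fin 2 → Fin G ⊕ Fin G → ℂ, F (fun k => v (w k)) = F v)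
    (v : Fin m × Fin 2 → K ⊗[ℚ] H) : tF b l F (fun k => v (w k)) = tF b l F v := by
  rw [tF_apply, tF_apply]
  exact congrArg l (hF (fun k => eY K b ((1 : ℂ) ⊗ₜ[K] v k)))

end comp

/-- **DSC2.** -/
theorem s_dsc2 : S_dsc2 := by
  intro H T _ _ _ _ K _ _ _ Γ _ per ρ χ G Z b hC m Δ W' hall F hF hFW σ
  -- the components of the form
  let W : Submodule K ℂ := Submodule.span K (Set.range (CF F))
  have : FiniteDimensional K W := FiniteDimensional.span_of_finite K (Set.finite_range _)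
  obtain ⟨n, c, l, hl⟩ := exists_coordF W
  choose r e f hf hv using fun j => hall (tF b (l j) F)
    (fun s hs => tF_tate b (l j) (hF s hs)) (fun w hw => tF_perm b (l j) (hFW w hw))
  -- the coefficients of the form
  have h1 : CF F = ∑ j, ∑ i, (c j * algebraMap K ℂ (e j i)) •
      cst ℂ (CF ((f j i).compLinearMap (fun _ => b.equivFun.symm.toLinearMap))) := by
    funext I
    rw [hl (CF F I) (Submodule.subset_span ⟨I, rfl⟩), Finset.sum_apply]
    refine Finset.sum_congr rfl fun j _ => ?_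
    have h2 : l j (CF F I) = tF b (l j) F (fun k => (1 : K) ⊗ₜ[ℚ]
        b.equivFun.symm (Pi.single (I k) 1)) := by
      rw [tF_apply]
      refine congrArg (l j) (congrArg F ?_)
      funext k
      rw [eY_rat, LinearEquiv.apply_symm_apply, single_cv]
    rw [h2, hv, map_sum, Finset.mul_sum, Finset.sum_apply]
    refine Finset.sum_congr rfl fun i _ => ?_
    rw [Pi.smul_apply, smul_eq_mul, cst_apply, map_mul, map_ratCast, mul_assoc]
    rfl
  -- all the terms are killed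
  apply kills_of_act
  rw [h1, act_sum_right]
  refine Finset.sum_eq_zero fun j _ => ?_
  rw [act_sum_right]
  refine Finset.sum_eq_zero fun i _ => ?_
  rw [act_smul_right]
  have h2 : IsHodgeTensor (per.comp b.equivFun.symm.toLinearMap.toAddMonoidHom)
      ((f j i).compLinearMap (fun _ => b.equivFun.symm.toLinearMap)) := by
    obtain ⟨ψ, h3, h4⟩ := hf j i
    exact ⟨ψ, fun v => h3 (fun k => b.equivFun.symm (v k)), h4⟩
  have h3 : IsH (DS Z σ) (CF ((f j i).compLinearMap (fun _ => b.equivFun.symm.toLinearMap))) :=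
    isH_conj (isH_ten hC h2) σ
  have h4 : act (DS Z σ)
      (cst ℂ (CF ((f j i).compLinearMap (fun _ => b.equivFun.symm.toLinearMap)))) = 0 := h3
  rw [h4, smul_zero]

/-- **DSC.** -/
theorem s_dsc : S_dsc := by
  intro H T _ _ _ _ K _ _ _ Γ _ per ρ χ G Z b hC m hall F Δ hΔ hF σ
  refine s_dsc2 per ρ χ G Z b hC m Δ ∅ (fun t ht _ => hall t ⟨Δ, hΔ, ht⟩) F hF
    (fun w hw => absurd hw (Set.notMem_empty w)) σ

end

end Pool.Agent.Helper49M
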