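import Mathlib
import Pool.Agent.Helper49M.Core2

/-!
# The conjugates of the involutions of the Hodge-Tate elements under the whole Galois group
-/

set_option linter.unusedSectionVars false

namespace Pool.Agent.Helper49M

open Matrix Module Pool.Agent.W437.HC Pool.Agent.W437.HD Pool.Agent.W548.Odd Pool.Agent.Y90
open Pool.Agent.H204R3.SP Pool.Agent.H204R3.GP TensorProduct Pool.Agent.W522.U
open Pool.Agent.Y224.TS
open Pool.Agent.Y224.TS.St (IsHodgeTate IsTateModule)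
open Pool.Agent.Y90.St (IsHom)

noncomputable section

variable {H : Type} [AddCommGroup H] [Module ℚ H] {K : Type} [Field K] [CharZero K] [Algebra K ℂ]
  {T : Type} [AddCommGroup T] [Module ℂ T] {per : H →+ T} {Γ : Type} [Group Γ]
  {ρ : Representation K Γ (K ⊗[ℚ] H)} {χ : Γ →* K} {G : ℕ} {Z : Matrix (Fin G) (Fin G) ℂ}
  {E : H → H → ℚ} (b : Basis (Fin G ⊕ Fin G) ℚ H)

/-- The matrix of an element of the Galois group. -/
def Rg (ρ : Representation K Γ (K ⊗[ℚ] H)) (b : Basis (Fin G ⊕ Fin G) ℚ H) (g : Γ) :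
    Matrix (Fin G ⊕ Fin G) (Fin G ⊕ Fin G) ℂ := mt b (bcr ρ ℂ g)

theorem Rg_mul (g g' : Γ) : Rg ρ b (g * g') = Rg ρ b g * Rg ρ b g' := by
  unfold Rg
  rw [map_mul, mt_mul]

theorem Rg_one : Rg ρ b 1 = 1 := by
  unfold Rg
  rw [map_one, mt_one]

theorem Rg_inv (g : Γ) : Rg ρ b g * Rg ρ b g⁻¹ = 1 := by
  rw [← Rg_mul, mul_inv_cancel, Rg_one]

theorem Rg_inv' (g : Γ) : Rg ρ b g⁻¹ * Rg ρ b g = 1 := by
  rw [← Rg_mul, inv_mul_cancel, Rg_one]

/-- The conjugates of the involutions. -/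
def SG (per : H →+ T) (ρ : Representation K Γ (K ⊗[ℚ] H)) (χ : Γ →* K)
    (b : Basis (Fin G ⊕ Fin G) ℚ H) : Set (Matrix (Fin G ⊕ Fin G) (Fin G ⊕ Fin G) ℂ) :=
  {D | ∃ g : Γ, ∃ D0 ∈ SH per ρ χ b, D = Rg ρ b g * D0 * Rg ρ b g⁻¹}

theorem SH_SG {D : Matrix (Fin G ⊕ Fin G) (Fin G ⊕ Fin G) ℂ} (hD : D ∈ SH per ρ χ b) :
    D ∈ SG per ρ χ b :=
  ⟨1, D, hD, by rw [inv_one, Rg_one, one_mul, mul_one]⟩

theorem SG_conj (g : Γ) {D : Matrix (Fin G ⊕ Fin G) (Fin G ⊕ Fin G) ℂ}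
    (hD : D ∈ SG per ρ χ b) : Rg ρ b g * D * Rg ρ b g⁻¹ ∈ SG per ρ χ b := by
  obtain ⟨g', D0, h0, rfl⟩ := hD
  refine ⟨g * g', D0, h0, ?_⟩
  rw [Rg_mul, _root_.mul_inv_rev, Rg_mul]
  noncomm_ring

theorem SG_lie {D : Matrix (Fin G ⊕ Fin G) (Fin G ⊕ Fin G) ℂ} (hD : D ∈ SG per ρ χ b) :
    ∃ x ∈ lieT (bcr ρ ℂ) (bcc χ ℂ), D = mt b x := by
  obtain ⟨g, _, ⟨σ, h, hh, rfl⟩, rfl⟩ := hD
  exact ⟨_, lieT_conj _ _ g (ht_lie hh), by rw [mt_mul, mt_mul]; rfl⟩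

theorem LT_SG_conj (g : Γ) : ∀ X ∈ Pool.Agent.Y224.TS.LT (SG per ρ χ b),
    Rg ρ b g * X * Rg ρ b g⁻¹ ∈ Pool.Agent.Y224.TS.LT (SG per ρ χ b) := by
  let C : Submodule ℂ (Matrix (Fin G ⊕ Fin G) (Fin G ⊕ Fin G) ℂ) :=
    { carrier := {X | Rg ρ b g * X * Rg ρ b g⁻¹ ∈ Pool.Agent.Y224.TS.LT (SG per ρ χ b)}
      add_mem' := by
        intro X Y hX hY
        change Rg ρ b g * (X + Y) * Rg ρ b g⁻¹ ∈ Pool.Agent.Y224.TS.LT (SG per ρ χ b)
        rw [mul_add, add_mul]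
        exact Submodule.add_mem _ hX hY
      zero_mem' := by
        change Rg ρ b g * 0 * Rg ρ b g⁻¹ ∈ Pool.Agent.Y224.TS.LT (SG per ρ χ b)
        rw [mul_zero, zero_mul]
        exact Submodule.zero_mem _
      smul_mem' := by
        intro c X hX
        change Rg ρ b g * (c • X) * Rg ρ b g⁻¹ ∈ Pool.Agent.Y224.TS.LT (SG per ρ χ b)
        rw [mul_smul_comm, smul_mul_assoc]
        exact Submodule.smul_mem _ _ hX }
  have hC : Pool.Agent.Y224.TS.LT (SG per ρ χ b) ≤ C := by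
    refine LT_le (fun D hD => LT_gen (SG_conj b g hD)) fun A hA A' hA' => ?_
    change Rg ρ b g * (A * A' - A' * A) * Rg ρ b g⁻¹ ∈ Pool.Agent.Y224.TS.LT (SG per ρ χ b)
    have h1 := LT_br (show Rg ρ b g * A * Rg ρ b g⁻¹ ∈ _ from hA)
      (show Rg ρ b g * A' * Rg ρ b g⁻¹ ∈ _ from hA')
    have h2 : ∀ A A' : Matrix (Fin G ⊕ Fin G) (Fin G ⊕ Fin G) ℂ,
        Rg ρ b g * A * Rg ρ b g⁻¹ * (Rg ρ b g * A' * Rg ρ b g⁻¹) =
          Rg ρ b g * (A * A') * Rg ρ b g⁻¹ := by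
      intro A A'
      have e : Rg ρ b g * A * Rg ρ b g⁻¹ * (Rg ρ b g * A' * Rg ρ b g⁻¹) =
          Rg ρ b g * A * (Rg ρ b g⁻¹ * Rg ρ b g) * A' * Rg ρ b g⁻¹ := by noncomm_ring
      rw [e, Rg_inv', mul_one]
      noncomm_ring
    rw [h2, h2, ← sub_mul, ← mul_sub] at h1
    exact h1
  exact fun X hX => hC hX

/-- Tate forms are killed. -/
theorem kills_LT {S : Set (Matrix (Fin G ⊕ Fin G) (Fin G ⊕ Fin G) ℂ)} {κ : Type} [Fintype κ]
    [DecidableEq κ] {F : MultilinearMap ℂ (fun _ : κ => Fin G ⊕ Fin G → ℂ) ℂ}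
    (hF : ∀ D ∈ S, Kills (ph (Fin G ⊕ Fin G) D) F) :
    ∀ X ∈ Pool.Agent.Y224.TS.LT S, Kills (ph (Fin G ⊕ Fin G) X) F := by
  let C : Submodule ℂ (Matrix (Fin G ⊕ Fin G) (Fin G ⊕ Fin G) ℂ) :=
    { carrier := {X | Kills (ph (Fin G ⊕ Fin G) X) F}
      add_mem' := by
        intro X Y hX hY v
        have h1 := hX v
        have h2 := hY v
        have h3 : ∀ k, F (Function.update v k (ph (Fin G ⊕ Fin G) (X + Y) (v k))) =
            F (Function.update v k (ph (Fin G ⊕ Fin G) X (v k))) +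
            F (Function.update v k (ph (Fin G ⊕ Fin G) Y (v k))) := by
          intro k
          rw [map_add, LinearMap.add_apply, MultilinearMap.map_update_add]
        rw [Finset.sum_congr rfl fun k _ => h3 k, Finset.sum_add_distrib, h1, h2, add_zero]
      zero_mem' := by
        intro v
        refine Finset.sum_eq_zero fun k _ => ?_
        rw [map_zero, LinearMap.zero_apply]
        exact F.map_coord_zero k (Function.update_self _ _ _)
      smul_mem' := by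
        intro c X hX v
        have h1 := hX v
        have h3 : ∀ k, F (Function.update v k (ph (Fin G ⊕ Fin G) (c • X) (v k))) =
            c * F (Function.update v k (ph (Fin G ⊕ Fin G) X (v k))) := by
          intro k
          rw [map_smul, LinearMap.smul_apply, MultilinearMap.map_update_smul, smul_eq_mul]
        rw [Finset.sum_congr rfl fun k _ => h3 k, ← Finset.mul_sum, h1, mul_zero] }
  have hC : Pool.Agent.Y224.TS.LT S ≤ C := by
    refine LT_le (fun D hD => hF D hD) fun A hA A' hA' => ?_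
    change Kills (ph (Fin G ⊕ Fin G) (A * A' - A' * A)) F
    rw [map_sub, map_mul, map_mul]
    exact kills_bracket hA hA'
  exact fun X hX => hC hX

variable [Algebra.IsAlgebraic K ℂ]

/-- The commutant is stable under the Galois group. -/
theorem cm_conj [FiniteDimensional ℚ H]
    (hC : Cht (per.comp b.equivFun.symm.toLinearMap.toAddMonoidHom) (JR Z))
    (hρ : IsTateModule per E ρ χ) {P : Matrix (Fin G ⊕ Fin G) (Fin G ⊕ Fin G) ℂ}
    (hP : ∀ X ∈ LZ Z, P * X = X * P) (g : Γ) :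
    ∀ X ∈ LZ Z, (Rg ρ b g * P * Rg ρ b g⁻¹) * X = X * (Rg ρ b g * P * Rg ρ b g⁻¹) := by
  obtain ⟨Δ, hΔ, hΔ'⟩ := exists_sub (K := K) (ρ := ρ) hρ
  have h1 : ∀ t ∈ Δ, P * Rg ρ b t = Rg ρ b t * P := by
    intro t ht
    obtain ⟨m, c, Q, hQ, rfl⟩ := commutant_expand gal_LZ hP
    rw [Finset.sum_mul, Finset.mul_sum]
    refine Finset.sum_congr rfl fun j _ => ?_
    rw [smul_mul_assoc, mul_smul_comm]
    congr 1
    obtain ⟨a, ha⟩ : ∃ a : H →ₗ[ℚ] H, LinearMap.toMatrix b b a = Q j :=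
      ⟨Matrix.toLin b b (Q j), LinearMap.toMatrix_toLin _ _ _⟩
    have ha' : IsHom per per a := (hom_iff b hC a).2 (by rw [ha]; exact hQ j)
    rw [← ha, ← mt_bc2 (K := K) b a]
    unfold Rg
    rw [← mt_mul, ← mt_mul]
    congr 1
    exact LinearMap.ext fun v => (bcr_comm (fun v => hΔ' a ha' t ht v) v).symm
  obtain ⟨f, rfl⟩ := mt_surj (K := K) b P
  have h2 : ∀ t ∈ Δ, f * bcr ρ ℂ t = bcr ρ ℂ t * f := by
    intro t ht
    apply mt_inj b
    rw [mt_mul, mt_mul]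
    exact h1 t ht
  have h3 : Rg ρ b g * mt b f * Rg ρ b g⁻¹ = mt b (bcr ρ ℂ g * f * bcr ρ ℂ g⁻¹) := by
    unfold Rg
    rw [mt_mul, mt_mul]
  rw [h3]
  refine faltings_mat (Δ := Δ.comap (MulAut.conj g⁻¹).toMonoidHom) b hρ hC ⟨by
      rw [Subgroup.index_comap_of_surjective _ (MulAut.conj g⁻¹).surjective]
      exact hΔ.index_ne_zero⟩ ?_
  intro t ht v
  have ht' : g⁻¹ * t * g ∈ Δ := by
    rw [Subgroup.mem_comap] at ht
    simpa [MulAut.conj_apply] using ht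
  have h4 := h2 _ ht'
  rw [map_mul, map_mul] at h4
  have e1 : bcr ρ ℂ g * bcr ρ ℂ g⁻¹ = 1 := by rw [← map_mul, mul_inv_cancel, map_one]
  have h5 : (bcr ρ ℂ g * f * bcr ρ ℂ g⁻¹) * bcr ρ ℂ t =
      bcr ρ ℂ t * (bcr ρ ℂ g * f * bcr ρ ℂ g⁻¹) := by
    have e2 : (bcr ρ ℂ g * f * bcr ρ ℂ g⁻¹) * bcr ρ ℂ t =
        (bcr ρ ℂ g * f * bcr ρ ℂ g⁻¹) * bcr ρ ℂ t * (bcr ρ ℂ g * bcr ρ ℂ g⁻¹) := by
      rw [e1, mul_one]
    rw [e2]
    have e3 : (bcr ρ ℂ g * f * bcr ρ ℂ g⁻¹) * bcr ρ ℂ t * (bcr ρ ℂ g * bcr ρ ℂ g⁻¹) =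
        bcr ρ ℂ g * (f * (bcr ρ ℂ g⁻¹ * bcr ρ ℂ t * bcr ρ ℂ g)) * bcr ρ ℂ g⁻¹ := by noncomm_ring
    rw [e3, h4]
    have e4 : bcr ρ ℂ g * (bcr ρ ℂ g⁻¹ * bcr ρ ℂ t * bcr ρ ℂ g * f) * bcr ρ ℂ g⁻¹ =
        (bcr ρ ℂ g * bcr ρ ℂ g⁻¹) * bcr ρ ℂ t * (bcr ρ ℂ g * f * bcr ρ ℂ g⁻¹) := by noncomm_ring
    rw [e4, e1, one_mul]
  exact LinearMap.congr_fun h5 v

/-- The conditions. -/
theorem tw_of (hb : ∀ p q, E (b q) (b p) = Om G ℚ p q)
    (hC : Cht (per.comp b.equivFun.symm.toLinearMap.toAddMonoidHom) (JR Z))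
    (hρ : IsTateModule per E ρ χ) : TW Z (SG per ρ χ b) := by
  have : FiniteDimensional ℚ H := Module.Finite.of_basis b
  obtain ⟨ω, hω, hωρ⟩ := hρ.weil
  have hss : HasProj (bcr ρ ℂ) := hasProj_bcr ρ ℂ hρ.semisimple
  have hTD : TD Z (SH per ρ χ b) := td_of b hb hC hρ
  refine ⟨?_, ?_, ?_, ?_, ?_⟩
  · rintro _ ⟨g, D0, h0, rfl⟩
    have e : Rg ρ b g * D0 * Rg ρ b g⁻¹ * (Rg ρ b g * D0 * Rg ρ b g⁻¹) =
        Rg ρ b g * D0 * (Rg ρ b g⁻¹ * Rg ρ b g) * D0 * Rg ρ b g⁻¹ := by noncomm_ring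
    rw [e, Rg_inv', mul_one, mul_assoc (Rg ρ b g), hTD.sq D0 h0, mul_one, Rg_inv]
  · intro D hD u v
    obtain ⟨x, hx, rfl⟩ := SG_lie b hD
    exact lie_sp b hb hω hωρ hx u v
  · intro P
    constructor
    · intro hP
      exact (hTD.comm P).1 fun D hD => hP D (SH_SG b hD)
    · rintro hP _ ⟨g, D0, h0, rfl⟩
      have h1 := cm_conj b hC hρ hP g⁻¹
      have h2 := (hTD.comm _).2 h1 D0 h0
      rw [inv_inv] at h2
      have e1 : P * (Rg ρ b g * D0 * Rg ρ b g⁻¹) =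
          (Rg ρ b g * Rg ρ b g⁻¹) * P * (Rg ρ b g * D0 * Rg ρ b g⁻¹) := by
        rw [Rg_inv, one_mul]
      rw [e1]
      have e2 : (Rg ρ b g * Rg ρ b g⁻¹) * P * (Rg ρ b g * D0 * Rg ρ b g⁻¹) =
          Rg ρ b g * ((Rg ρ b g⁻¹ * P * Rg ρ b g) * D0) * Rg ρ b g⁻¹ := by noncomm_ring
      rw [e2, h2]
      have e3 : Rg ρ b g * (D0 * (Rg ρ b g⁻¹ * P * Rg ρ b g)) * Rg ρ b g⁻¹ =
          (Rg ρ b g * D0 * Rg ρ b g⁻¹) * P * (Rg ρ b g * Rg ρ b g⁻¹) := by noncomm_ring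
      rw [e3, Rg_inv, mul_one]
  · intro σ
    obtain ⟨D, hD, h1⟩ := hTD.ex σ
    exact ⟨D, SH_SG b hD, h1⟩
  · -- complete reducibility
    let R : Γ → End ℂ (Fin G ⊕ Fin G → ℂ) := fun g =>
      (eY K b).toLinearMap ∘ₗ (bcr ρ ℂ g) ∘ₗ (eY K b).symm.toLinearMap
    have hR : ∀ (g : Γ) (w : ℂ ⊗[K] (K ⊗[ℚ] H)), R g (eY K b w) = eY K b (bcr ρ ℂ g w) := by
      intro g w
      change eY K b (bcr ρ ℂ g ((eY K b).symm (eY K b w))) = _
      rw [LinearEquiv.symm_apply_apply]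
    have hRg : ∀ (g : Γ) (v : Fin G ⊕ Fin G → ℂ), R g v = Rg ρ b g *ᵥ v := by
      intro g v
      obtain ⟨w, rfl⟩ := (eY K b).surjective v
      rw [hR]
      exact (mt_mulVec _ _ _).symm
    have hU : ∀ U : Submodule ℂ (Fin G ⊕ Fin G → ℂ), (∀ g, ∀ u ∈ U, R g u ∈ U) →
        ∀ s ∈ (⊤ : Subgroup Γ), ∀ u ∈ U.comap (eY K b).toLinearMap,
          bcr ρ ℂ s u ∈ U.comap (eY K b).toLinearMap := by
      intro U hU s _ u hu
      have h1 := hU s _ hu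
      change R s (eY K b u) ∈ U at h1
      rw [hR] at h1
      exact h1
    have htop : (⊤ : Subgroup Γ).FiniteIndex := inferInstance
    refine cred_of_conj R (fun g => g⁻¹) (fun g v => ?_) (fun g v => ?_) (fun U hUR => ?_)
      (fun U hUR => ?_) (fun g => LT_conj (R g) ?_)
    · obtain ⟨w, rfl⟩ := (eY K b).surjective v
      rw [hR, hR]
      exact congrArg (eY K b) (bcr_inv g w)
    · obtain ⟨w, rfl⟩ := (eY K b).surjective v
      rw [hR, hR]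
      exact congrArg (eY K b) (bcr_inv' g w)
    · obtain ⟨π, h1, h2, h3⟩ := hss ⊤ htop _ (hU U hUR)
      refine ⟨(eY K b).toLinearMap ∘ₗ π ∘ₗ (eY K b).symm.toLinearMap, fun v => h1 _,
        fun u hu => ?_, fun g v => ?_⟩
      · obtain ⟨w, rfl⟩ := (eY K b).surjective u
        change eY K b (π ((eY K b).symm (eY K b w))) = _
        rw [LinearEquiv.symm_apply_apply, h2 w hu]
      · obtain ⟨w, rfl⟩ := (eY K b).surjective v
        rw [hR]
        change eY K b (π ((eY K b).symm (eY K b (bcr ρ ℂ g w)))) =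
          R g (eY K b (π ((eY K b).symm (eY K b w))))
        rw [LinearEquiv.symm_apply_apply, LinearEquiv.symm_apply_apply, hR,
          h3 g (Subgroup.mem_top g)]
    · obtain ⟨π, h1, h2, h3⟩ := hss ⊤ htop _ (hU U hUR)
      let C : Submodule ℂ (Matrix (Fin G ⊕ Fin G) (Fin G ⊕ Fin G) ℂ) :=
        { carrier := {X | ∀ u ∈ U, X *ᵥ u ∈ U}
          add_mem' := fun {X Y} hX hY u hu => by
            rw [add_mulVec]
            exact U.add_mem (hX u hu) (hY u hu)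
          zero_mem' := fun u _ => by
            rw [zero_mulVec]
            exact U.zero_mem
          smul_mem' := fun c X hX u hu => by
            rw [smul_mulVec]
            exact U.smul_mem _ (hX u hu) }
      have hCL : Pool.Agent.Y224.TS.LT (SG per ρ χ b) ≤ C := by
        refine LT_le ?_ (fun A hA A' hA' u hu => ?_)
        · intro D hD u hu
          obtain ⟨x, hx, rfl⟩ := SG_lie b hD
          obtain ⟨w, rfl⟩ := (eY K b).surjective u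
          have h4 := lie_comm b hb hω hωρ ⊤ htop π h3 hx
          have h5 := LinearMap.congr_fun h4 w
          rw [Module.End.mul_apply, Module.End.mul_apply, h2 w hu] at h5
          rw [mt_mulVec, h5]
          exact h1 _
        · rw [sub_mulVec, ← mulVec_mulVec, ← mulVec_mulVec]
          exact U.sub_mem (hA _ (hA' u hu)) (hA' _ (hA u hu))
      exact fun X hX => hCL hX
    · intro D hD
      refine ⟨_, SG_conj b g hD, fun v => ?_⟩
      rw [hRg, hRg, mulVec_mulVec, mulVec_mulVec]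
      congr 1
      rw [mul_assoc, mul_assoc, Rg_inv', mul_one]

/-- The Galois group acts by similitudes. -/
theorem om_Rg (hb : ∀ p q, E (b q) (b p) = Om G ℚ p q)
    (hρ : IsTateModule per E ρ χ) (g : Γ) (u v : Fin G ⊕ Fin G → ℂ) :
    om G (Rg ρ b g *ᵥ u) (Rg ρ b g *ᵥ v) = algebraMap K ℂ (χ g) * om G u v := by
  obtain ⟨ω, hω, hωρ⟩ := hρ.weil
  obtain ⟨u', rfl⟩ := (eY K b).surjective u
  obtain ⟨v', rfl⟩ := (eY K b).surjective v
  have h1 := bcb_inv (Ω := ℂ) ρ χ ω hωρ g v' u'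
  rw [weil_om b hb hω, weil_om b hb hω] at h1
  unfold Rg
  rw [mt_mulVec, mt_mulVec]
  exact h1

end

end Pool.Agent.Helper49M
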