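import Mathlib
import Pool.Agent.Helper49M.Gal
import Pool.Agent.Helper49M.Stm2

/-!
# Tate tensors of all degrees are combinations of Hodge tensors if those in four variables are
-/

set_option linter.unusedSectionVars false

namespace Pool.Agent.Helper49M

open Matrix Module Pool.Agent.W437.HC Pool.Agent.W437.HD Pool.Agent.W548.Odd Pool.Agent.Y90
open Pool.Agent.H204R3.SP Pool.Agent.H204R3.GP TensorProduct Pool.Agent.W522.U
open Pool.Agent.Y224.TS
open Pool.Agent.Y224.TS.St (IsHodgeTate IsTateModule)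
open Pool.Agent.Y90.St (IsHom)
open Pool.Agent.W437.HP (cK cK_mul cK_one)
open Pool.Agent.N183.TS Pool.Agent.N183.U5

noncomputable section

variable {K : Type} [Field K] [CharZero K] [Algebra K ℂ] {Γ : Type} [Group Γ]

/-- **Main theorem.** -/
theorem main_of (hdsc : S_dsc2) [Algebra.IsAlgebraic K ℂ] (X : AV)
    {E : X.H → X.H → ℚ} (hE : Pool.Agent.Y90.St.IsPolarization X.per E)
    {ρ : Representation K Γ (K ⊗[ℚ] X.H)} {χ : Γ →* K} (hρ : IsTateModule X.per E ρ χ)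
    (h4 : ∀ t : MultilinearMap K (fun _ : Fin 2 × Fin 2 => K ⊗[ℚ] X.H) K,
      (∀ s v, t (fun k => ρ s (v k)) = χ s ^ 2 * t v) →
      (∀ w ∈ WW, ∀ v, t (fun k => v (w k)) = t v) →
      ∃ (n : ℕ) (c : Fin n → K) (f : Fin n → MultilinearMap ℚ (fun _ : Fin 2 × Fin 2 => X.H) ℚ),
        (∀ j, IsHodgeTensor X.per (f j)) ∧
          ∀ v : Fin 2 × Fin 2 → X.H, t (fun k => (1 : K) ⊗ₜ[ℚ] v k) =
            ∑ j, c j * ((f j v : ℚ) : K)) {m : ℕ}
    (t : MultilinearMap K (fun _ : Fin m × Fin 2 => K ⊗[ℚ] X.H) K)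
    (ht : IsTate ρ χ m t) :
    ∃ (n : ℕ) (c : Fin n → K) (f : Fin n → MultilinearMap ℚ (fun _ : Fin m × Fin 2 => X.H) ℚ),
      (∀ j, IsHodgeTensor X.per (f j)) ∧
        ∀ v : Fin m × Fin 2 → X.H, t (fun k => (1 : K) ⊗ₜ[ℚ] v k) =
          ∑ j, c j * ((f j v : ℚ) : K) := by
  classical
  obtain ⟨a, Z, hZ, b, hC, hb⟩ := exists_ppav' (AV.isAV X) hE
  have hTD : TD Z (SH X.per ρ χ b) := td_of b hb hC hρ
  have hTW : TW Z (SG X.per ρ χ b) := tw_of b hb hC hρ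
  obtain ⟨F, hF1, hF2, hF3⟩ := hTW.exists_form hZ
  have hle : LZ Z ≤ Pool.Agent.Y224.TS.LT (SG X.per ρ χ b) := by
    refine hF3 ?_
    refine hdsc X.per ρ χ a Z b hC 2 ⊤ WW (fun t h1 h2 => h4 t (fun s v => h1 s trivial v) h2) F
      (fun s _ v => ?_) hF2
    refine hF1 (Rg ρ b s) (Rg ρ b s⁻¹) _ (Rg_inv b s) (Rg_inv' b s) (om_Rg b hb hρ s)
      (LT_SG_conj b s) (fun Y hY => ?_) v
    have h5 := LT_SG_conj b s⁻¹ Y hY
    rwa [inv_inv] at h5
  obtain ⟨Ψ₂, h₂⟩ := hC.hom hZ.cht (R := 1) (by rw [cK_one, Matrix.one_mul, Matrix.mul_one])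
  have e₂ : ∀ v, Ψ₂ (X.per v) = perOne Z (b.equivFun v) := fun v => by
    have h3 := h₂ (b.equivFun v)
    have h4 : (X.per.comp b.equivFun.symm.toLinearMap.toAddMonoidHom) (b.equivFun v) = X.per v := by
      change X.per (b.equivFun.symm (b.equivFun v)) = X.per v
      rw [LinearEquiv.symm_apply_apply]
    rwa [h4, one_mulVec] at h3
  have hkill : ∀ D ∈ SG X.per ρ χ b, Kills (ph (Fin a ⊕ Fin a) D) (FC b t) := by
    intro D hD v
    obtain ⟨x, hx, rfl⟩ := SG_lie b hD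
    obtain ⟨w, rfl⟩ : ∃ w : Fin m × Fin 2 → ℂ ⊗[K] (K ⊗[ℚ] X.H), v = fun k => eY K b (w k) :=
      ⟨fun k => (eY K b).symm (v k), by
        funext k
        exact ((eY K b).apply_symm_apply (v k)).symm⟩
    have h1 := hx m _ (bcm_tate (Ω := ℂ) (bV K b) ρ χ t ht) w
    rw [← h1]
    refine Finset.sum_congr rfl fun k _ => ?_
    rw [← FC_e]
    congr 1
    funext l
    by_cases hl : l = k
    · subst hl
      rw [Function.update_self, Function.update_self]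
      exact mt_mulVec b _ (w l)
    · rw [Function.update_of_ne hl, Function.update_of_ne hl]
  have h0 : ∀ Y ∈ LZ Z, Kills (ph (Fin a ⊕ Fin a) Y) (FC b t) := fun Y hY =>
    kills_LT hkill Y (hle hY)
  have h1 := expand_ten (F := FC b t) hZ.cht gal_LZ (DJ_JR ▸ DZ_mem)
    (fun X hX => act_of_kills (h0 X hX))
  have h2 : (fun v : Fin m × Fin 2 → Fin a ⊕ Fin a → ℚ => FC b t (fun k => cv (v k))) =
      fun v => algebraMap K ℂ (t (fun k => (1 : K) ⊗ₜ[ℚ] b.equivFun.symm (v k))) := by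
    funext v
    exact FC_rat b t v
  rw [h2] at h1
  -- descent
  let S : Set ((Fin m × Fin 2 → Fin a ⊕ Fin a → ℚ) → K) :=
    {s | ∃ r : MultilinearMap ℚ (fun _ : Fin m × Fin 2 => Fin a ⊕ Fin a → ℚ) ℚ,
      IsHodgeTensor (perOne Z) r ∧ s = fun v => ((r v : ℚ) : K)}
  have h3 : (fun v : Fin m × Fin 2 → Fin a ⊕ Fin a → ℚ =>
      t (fun k => (1 : K) ⊗ₜ[ℚ] b.equivFun.symm (v k))) ∈ Submodule.span K S := by
    refine span_descent_k (Ω := ℂ) S _ ?_
    refine Submodule.span_mono ?_ h1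
    rintro g ⟨r, hr, rfl⟩
    refine ⟨_, ⟨r, hr, rfl⟩, ?_⟩
    funext v
    rw [map_ratCast]
  obtain ⟨n, c, s, hs'⟩ := Submodule.mem_span_set'.1 h3
  choose r hr hr' using fun j => (s j).2
  refine ⟨n, c, fun j => (r j).compLinearMap fun _ => b.equivFun.toLinearMap,
    fun j => isHodgeTensor_comp _ Ψ₂ e₂ (hr j), fun v => ?_⟩
  have h4 := congrFun hs' (fun k => b.equivFun (v k))
  beta_reduce at h4
  have h5 : (fun k => (1 : K) ⊗ₜ[ℚ] b.equivFun.symm (b.equivFun (v k))) =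
      fun k => (1 : K) ⊗ₜ[ℚ] v k := by
    funext k
    rw [LinearEquiv.symm_apply_apply]
  rw [h5] at h4
  rw [← h4, Finset.sum_apply]
  refine Finset.sum_congr rfl fun j _ => ?_
  rw [Pi.smul_apply, smul_eq_mul, hr' j]
  rfl

end

end Pool.Agent.Helper49M
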